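import Pool.Agent.Helper99.HZ.LA

/-!
# HZ: the inequality for a finite set of complex numbers symmetric with respect to a line

`Z` is a finite set of complex numbers, stable under `sg ρ = 1 - conj ρ`, `m ≥ 0` weights with `m (sg ρ) = m ρ`,
`ds x = ∑ m ρ exp (x L (ρ - 1/2))`. Then `((∫ s) ∑ m)² ≤ #{ρ ∈ Z : Re ρ ≥ 1/2} ∫∫ s(x) s(y) |ds (x - y)|²` for every continuous `s ≥ 0` on
`[-c,c]`.
-/

set_option autoImplicit false

open Matrix MeasureTheory
open scoped ComplexOrder ComplexConjugate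

namespace Pool.Agent.Helper99.HZ

/-- the reflection in the critical line -/
noncomputable def sg (ρ : ℂ) : ℂ := 1 - conj ρ

lemma sg_sg (ρ : ℂ) : sg (sg ρ) = ρ := by
  unfold sg
  simp

lemma sg_re (ρ : ℂ) : (sg ρ).re = 1 - ρ.re := by
  unfold sg
  simp

/-- the exponential sum -/
noncomputable def ds (L : ℝ) (Z : Finset ℂ) (m : ℂ → ℝ) (x : ℝ) : ℂ :=
  ∑ ρ ∈ Z, (m ρ : ℂ) * Complex.exp ((x : ℂ) * ((L : ℂ) * (ρ - 1 / 2)))

section

variable (L : ℝ) (Z : Finset ℂ) (m : ℂ → ℝ) (s : ℝ → ℝ) (c : ℝ)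

/-- the exponential -/
noncomputable def ex (x : ℝ) (ρ : ℂ) : ℂ := Complex.exp ((x : ℂ) * ((L : ℂ) * (ρ - 1 / 2)))

lemma ex_cont (ρ : ℂ) : Continuous (fun x => ex L x ρ) := by
  unfold ex
  fun_prop

lemma ex_conj (x : ℝ) (ρ : ℂ) : conj (ex L x (sg ρ)) = ex L (-x) ρ := by
  unfold ex sg
  rw [← Complex.exp_conj]
  congr 1
  simp only [map_mul, map_sub, Complex.conj_ofReal, map_one, map_div₀, Complex.conj_conj]
  have : conj (2 : ℂ) = 2 := Complex.conj_ofNat 2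
  rw [this]
  push_cast
  ring

lemma ex_sub (x y : ℝ) (ρ : ℂ) : ex L (x - y) ρ = ex L x ρ * ex L (-y) ρ := by
  unfold ex
  rw [← Complex.exp_add]
  congr 1
  push_cast
  ring

lemma ex_int {s : ℝ → ℝ} (hs : Continuous s) (c : ℝ) {f : ℝ → ℂ} (hf : Continuous f) :
    Integrable (fun x => (s x : ℂ) * f x) (volume.restrict (Set.Icc (-c) c)) := by
  have h : Continuous (fun x => (s x : ℂ) * f x) := (Complex.continuous_ofReal.comp hs).mul hf
  exact h.continuousOn.integrableOn_compact isCompact_Icc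

/-- the Gram matrix -/
noncomputable def AA : Matrix Z Z ℂ := Matrix.of fun ρ ρ' =>
  ∫ x in Set.Icc (-c) c, (s x : ℂ) * (conj (ex L x (ρ : ℂ)) * ex L x (ρ' : ℂ))

lemma AA_herm : (AA L Z s c).IsHermitian := by
  ext ρ ρ'
  simp only [conjTranspose_apply, AA, of_apply]
  rw [Complex.star_def, ← integral_conj]
  refine integral_congr_ae (Filter.Eventually.of_forall fun x => ?_)
  simp only [map_mul, Complex.conj_ofReal, Complex.conj_conj]
  ring

lemma AA_form {s : ℝ → ℝ} (hs : Continuous s) (x : Z → ℂ) : star x ⬝ᵥ (AA L Z s c).mulVec x =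
    ((∫ y in Set.Icc (-c) c, s y * ‖∑ ρ : Z, x ρ * ex L y (ρ : ℂ)‖ ^ 2 : ℝ) : ℂ) := by
  simp only [dotProduct, mulVec, AA, of_apply, Pi.star_apply]
  have e1 : ∀ ρ : Z, star (x ρ) * ∑ ρ' : Z, (∫ y in Set.Icc (-c) c, (s y : ℂ) * (conj (ex L y (ρ : ℂ)) * ex L y (ρ' : ℂ))) * x ρ' =
      ∫ y in Set.Icc (-c) c, ∑ ρ' : Z, (s y : ℂ) * ((star (x ρ) * conj (ex L y (ρ : ℂ))) * (ex L y (ρ' : ℂ) * x ρ')) := by
    intro ρ
    rw [integral_finsetSum]
    · rw [Finset.mul_sum]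
      refine Finset.sum_congr rfl fun ρ' _ => ?_
      rw [← integral_mul_const, ← integral_const_mul]
      refine integral_congr_ae (Filter.Eventually.of_forall fun y => ?_)
      simp only
      ring
    · intro ρ' _
      refine ex_int hs c ?_
      have h1 := ex_cont L (ρ : ℂ)
      have h2 := ex_cont L (ρ' : ℂ)
      exact (continuous_const.mul (Complex.continuous_conj.comp h1)).mul (h2.mul continuous_const)
  simp only [e1]
  rw [← integral_finsetSum]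
  · rw [← integral_complex_ofReal]
    refine integral_congr_ae (Filter.Eventually.of_forall fun y => ?_)
    simp only
    have h2 : ((‖∑ ρ : Z, x ρ * ex L y (ρ : ℂ)‖ ^ 2 : ℝ) : ℂ) =
        conj (∑ ρ : Z, x ρ * ex L y (ρ : ℂ)) * ∑ ρ : Z, x ρ * ex L y (ρ : ℂ) := by
      rw [mul_comm, Complex.mul_conj, Complex.normSq_eq_norm_sq]
    rw [Complex.ofReal_mul, h2, map_sum, Finset.sum_mul, Finset.mul_sum]
    refine Finset.sum_congr rfl fun ρ _ => ?_
    rw [Finset.mul_sum, Finset.mul_sum]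
    refine Finset.sum_congr rfl fun ρ' _ => ?_
    rw [map_mul, Complex.star_def]
    ring
  · intro ρ _
    refine integrable_finsetSum _ fun ρ' _ => ?_
    refine ex_int hs c ?_
    have h1 := ex_cont L (ρ : ℂ)
    have h2 := ex_cont L (ρ' : ℂ)
    exact (continuous_const.mul (Complex.continuous_conj.comp h1)).mul (h2.mul continuous_const)

lemma AA_psd {s : ℝ → ℝ} (hs : Continuous s) (h0 : ∀ x ∈ Set.Icc (-c) c, 0 ≤ s x) : (AA L Z s c).PosSemidef := by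
  refine Matrix.PosSemidef.of_dotProduct_mulVec_nonneg (AA_herm L Z s c) fun x => ?_
  rw [AA_form L Z c hs x]
  have : 0 ≤ ∫ y in Set.Icc (-c) c, s y * ‖∑ ρ : Z, x ρ * ex L y (ρ : ℂ)‖ ^ 2 :=
    setIntegral_nonneg measurableSet_Icc fun y hy => mul_nonneg (h0 y hy) (sq_nonneg _)
  exact_mod_cast this

/-- the symmetry of the set -/
structure Sym (Z : Finset ℂ) (m : ℂ → ℝ) : Prop where
  mem : ∀ ρ ∈ Z, sg ρ ∈ Z
  eq : ∀ ρ ∈ Z, m (sg ρ) = m ρ
  nn : ∀ ρ ∈ Z, 0 ≤ m ρ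

variable {Z m}

/-- the reflection on the set -/
noncomputable def sz (h : Sym Z m) (ρ : Z) : Z := ⟨sg ρ, h.mem ρ ρ.2⟩

lemma sz_sz (h : Sym Z m) (ρ : Z) : sz h (sz h ρ) = ρ := Subtype.ext (sg_sg _)

/-- the matrix of the form -/
noncomputable def HH (h : Sym Z m) : Matrix Z Z ℂ := Matrix.of fun ρ ρ' => if ρ' = sz h ρ then (m ρ : ℂ) else 0

lemma HH_herm (h : Sym Z m) : (HH h).IsHermitian := by
  ext ρ ρ'
  simp only [conjTranspose_apply, HH, of_apply]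
  by_cases h1 : ρ' = sz h ρ
  · have h2 : ρ = sz h ρ' := by rw [h1, sz_sz]
    rw [if_pos h2, if_pos h1, Complex.star_def, Complex.conj_ofReal, h1]
    have h3 : m ((sz h ρ : Z) : ℂ) = m (ρ : ℂ) := h.eq ρ ρ.2
    rw [h3]
  · have h2 : ¬ ρ = sz h ρ' := fun h2 => h1 (by rw [h2, sz_sz])
    rw [if_neg h2, if_neg h1, star_zero]

lemma HH_mulVec (h : Sym Z m) (x : Z → ℂ) (ρ : Z) : (HH h).mulVec x ρ = (m ρ : ℂ) * x (sz h ρ) := by
  simp only [mulVec, dotProduct, HH, of_apply, ite_mul, zero_mul]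
  rw [Finset.sum_ite_eq' Finset.univ (sz h ρ)]
  simp

lemma HH_mul (h : Sym Z m) (A : Matrix Z Z ℂ) (ρ ρ' : Z) : (HH h * A) ρ ρ' = (m ρ : ℂ) * A (sz h ρ) ρ' := by
  simp only [Matrix.mul_apply, HH, of_apply, ite_mul, zero_mul]
  rw [Finset.sum_ite_eq' Finset.univ (sz h ρ)]
  simp

lemma HA_eq (h : Sym Z m) (ρ ρ' : Z) : (HH h * AA L Z s c) ρ ρ' =
    (m ρ : ℂ) * ∫ x in Set.Icc (-c) c, (s x : ℂ) * (ex L (-x) (ρ : ℂ) * ex L x (ρ' : ℂ)) := by
  rw [HH_mul]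
  congr 1
  simp only [AA, of_apply]
  refine integral_congr_ae (Filter.Eventually.of_forall fun x => ?_)
  simp only
  have : ((sz h ρ : Z) : ℂ) = sg (ρ : ℂ) := rfl
  rw [this, ex_conj]

lemma HA_trace {s : ℝ → ℝ} (h : Sym Z m) : (HH h * AA L Z s c).trace.re =
    (∫ x in Set.Icc (-c) c, s x) * ∑ ρ ∈ Z, m ρ := by
  have e : (HH h * AA L Z s c).trace = (((∫ x in Set.Icc (-c) c, s x) * ∑ ρ ∈ Z, m ρ : ℝ) : ℂ) := by
    rw [Matrix.trace]
    simp only [diag_apply, HA_eq]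
    have e1 : ∀ ρ : Z, (m ρ : ℂ) * ∫ x in Set.Icc (-c) c, (s x : ℂ) * (ex L (-x) (ρ : ℂ) * ex L x (ρ : ℂ)) =
        (m ρ : ℂ) * ((∫ x in Set.Icc (-c) c, s x : ℝ) : ℂ) := by
      intro ρ
      congr 1
      rw [← integral_complex_ofReal]
      refine integral_congr_ae (Filter.Eventually.of_forall fun x => ?_)
      simp only
      have : ex L (-x) (ρ : ℂ) * ex L x (ρ : ℂ) = 1 := by
        unfold ex
        rw [← Complex.exp_add]
        have : ((-x : ℝ) : ℂ) * ((L : ℂ) * ((ρ : ℂ) - 1 / 2)) + (x : ℂ) * ((L : ℂ) * ((ρ : ℂ) - 1 / 2)) = 0 := by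
          push_cast
          ring
        rw [this, Complex.exp_zero]
      rw [this, mul_one]
    simp only [e1]
    rw [← Finset.sum_mul]
    have e2 : ∑ i : Z, ((m i : ℝ) : ℂ) = ((∑ ρ ∈ Z, m ρ : ℝ) : ℂ) := by
      push_cast
      exact Finset.sum_coe_sort Z (fun ρ => (m ρ : ℂ))
    rw [e2]
    push_cast
    ring
  rw [e, Complex.ofReal_re]

lemma ds_cont : Continuous (ds L Z m) := by
  unfold ds
  refine continuous_finsetSum _ fun ρ _ => ?_
  exact continuous_const.mul (ex_cont L ρ)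

lemma ds_sq (h : Sym Z m) (w : ℝ) : ((‖ds L Z m w‖ ^ 2 : ℝ) : ℂ) =
    ∑ ρ : Z, ∑ ρ' : Z, (m ρ : ℂ) * (m ρ' : ℂ) * (ex L (-w) (ρ : ℂ) * ex L w (ρ' : ℂ)) := by
  have e0 : ∀ w : ℝ, ds L Z m w = ∑ ρ : Z, (m ρ : ℂ) * ex L w (ρ : ℂ) := by
    intro w
    unfold ds ex
    exact (Finset.sum_coe_sort Z (fun ρ => (m ρ : ℂ) * Complex.exp ((w : ℂ) * ((L : ℂ) * (ρ - 1 / 2))))).symm
  have e1 : conj (ds L Z m w) = ∑ ρ : Z, (m ρ : ℂ) * ex L (-w) (ρ : ℂ) := by
    rw [e0, map_sum]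
    have e2 : ∀ ρ : Z, conj ((m ρ : ℂ) * ex L w (ρ : ℂ)) = (fun ρ : Z => (m ρ : ℂ) * ex L (-w) (ρ : ℂ)) (sz h ρ) := by
      intro ρ
      simp only
      have h1 : ((sz h ρ : Z) : ℂ) = sg (ρ : ℂ) := rfl
      rw [map_mul, Complex.conj_ofReal, h1, h.eq ρ ρ.2]
      congr 1
      have h2 := ex_conj L w (sg (ρ : ℂ))
      rw [sg_sg] at h2
      exact h2
    simp only [e2]
    let e : Z ≃ Z := ⟨sz h, sz h, sz_sz h, sz_sz h⟩
    exact e.sum_comp (fun ρ : Z => (m ρ : ℂ) * ex L (-w) (ρ : ℂ))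
  have e3 : ((‖ds L Z m w‖ ^ 2 : ℝ) : ℂ) = conj (ds L Z m w) * ds L Z m w := by
    rw [mul_comm, Complex.mul_conj, Complex.normSq_eq_norm_sq]
  rw [e3, e1, e0, Finset.sum_mul]
  refine Finset.sum_congr rfl fun ρ _ => ?_
  rw [Finset.mul_sum]
  refine Finset.sum_congr rfl fun ρ' _ => ?_
  ring

lemma HA_sq {s : ℝ → ℝ} (hs : Continuous s) (h : Sym Z m) : (HH h * AA L Z s c * HH h * AA L Z s c).trace.re =
    ∫ x in Set.Icc (-c) c, ∫ y in Set.Icc (-c) c, s x * s y * ‖ds L Z m (x - y)‖ ^ 2 := by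
  have e : (HH h * AA L Z s c * HH h * AA L Z s c).trace =
      ((∫ x in Set.Icc (-c) c, ∫ y in Set.Icc (-c) c, s x * s y * ‖ds L Z m (x - y)‖ ^ 2 : ℝ) : ℂ) := by
    have e0 : HH h * AA L Z s c * HH h * AA L Z s c = (HH h * AA L Z s c) * (HH h * AA L Z s c) := by
      rw [Matrix.mul_assoc (HH h * AA L Z s c)]
    rw [e0, Matrix.trace]
    simp only [diag_apply, Matrix.mul_apply (M := HH h * AA L Z s c), HA_eq]
    rw [← integral_complex_ofReal]
    have e1 : ∀ x : ℝ, ((∫ y in Set.Icc (-c) c, s x * s y * ‖ds L Z m (x - y)‖ ^ 2 : ℝ) : ℂ) =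
        ∑ ρ : Z, ∑ ρ' : Z, ((m ρ : ℂ) * (m ρ' : ℂ) * ∫ y in Set.Icc (-c) c, (s y : ℂ) * (ex L (-y) (ρ' : ℂ) * ex L y (ρ : ℂ))) *
          ((s x : ℂ) * (ex L (-x) (ρ : ℂ) * ex L x (ρ' : ℂ))) := by
      intro x
      rw [← integral_complex_ofReal]
      have e2 : ∀ y : ℝ, ((s x * s y * ‖ds L Z m (x - y)‖ ^ 2 : ℝ) : ℂ) =
          ∑ ρ : Z, ∑ ρ' : Z, ((m ρ : ℂ) * (m ρ' : ℂ) * ((s x : ℂ) * (ex L (-x) (ρ : ℂ) * ex L x (ρ' : ℂ)))) *
            ((s y : ℂ) * (ex L (-y) (ρ' : ℂ) * ex L y (ρ : ℂ))) := by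
        intro y
        rw [Complex.ofReal_mul, ds_sq L h, Finset.mul_sum]
        refine Finset.sum_congr rfl fun ρ _ => ?_
        rw [Finset.mul_sum]
        refine Finset.sum_congr rfl fun ρ' _ => ?_
        have h1 : ex L (-(x - y)) (ρ : ℂ) = ex L y (ρ : ℂ) * ex L (-x) (ρ : ℂ) := by
          rw [neg_sub, ex_sub]
        rw [h1, ex_sub]
        push_cast
        ring
      simp only [e2]
      rw [integral_finsetSum]
      · refine Finset.sum_congr rfl fun ρ _ => ?_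
        rw [integral_finsetSum]
        · refine Finset.sum_congr rfl fun ρ' _ => ?_
          rw [integral_const_mul]
          ring
        · intro ρ' _
          refine (ex_int hs c ?_).const_mul _
          exact ((ex_cont L (ρ' : ℂ)).comp continuous_neg).mul (ex_cont L (ρ : ℂ))
      · intro ρ _
        refine integrable_finsetSum _ fun ρ' _ => ?_
        refine (ex_int hs c ?_).const_mul _
        exact ((ex_cont L (ρ' : ℂ)).comp continuous_neg).mul (ex_cont L (ρ : ℂ))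
    simp only [e1]
    have hint : ∀ ρ ρ' : Z, Integrable (fun x : ℝ => ((m ρ : ℂ) * (m ρ' : ℂ) *
        ∫ y in Set.Icc (-c) c, (s y : ℂ) * (ex L (-y) (ρ' : ℂ) * ex L y (ρ : ℂ))) *
          ((s x : ℂ) * (ex L (-x) (ρ : ℂ) * ex L x (ρ' : ℂ)))) (volume.restrict (Set.Icc (-c) c)) := by
      intro ρ ρ'
      refine (ex_int hs c ?_).const_mul _
      exact ((ex_cont L (ρ : ℂ)).comp continuous_neg).mul (ex_cont L (ρ' : ℂ))
    rw [integral_finsetSum]
    · refine Finset.sum_congr rfl fun ρ _ => ?_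
      rw [integral_finsetSum]
      · refine Finset.sum_congr rfl fun ρ' _ => ?_
        rw [integral_const_mul]
        ring
      · intro ρ' _
        exact hint ρ ρ'
    · intro ρ _
      exact integrable_finsetSum _ fun ρ' _ => hint ρ ρ'
  rw [e, Complex.ofReal_re]

/-- the number of points in the closed right half -/
noncomputable def rt (Z : Finset ℂ) : Finset ℂ := Z.filter (fun ρ => 1 / 2 ≤ ρ.re)

theorem key {s : ℝ → ℝ} (hs : Continuous s) {c : ℝ} (h0 : ∀ x ∈ Set.Icc (-c) c, 0 ≤ s x) (h : Sym Z m) :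
    ((∫ x in Set.Icc (-c) c, s x) * ∑ ρ ∈ Z, m ρ) ^ 2 ≤ (rt Z).card *
      ∫ x in Set.Icc (-c) c, ∫ y in Set.Icc (-c) c, s x * s y * ‖ds L Z m (x - y)‖ ^ 2 := by
  classical
  have hmem : ∀ i : Fin (rt Z).card, (((rt Z).equivFin.symm i : rt Z) : ℂ) ∈ Z := fun i =>
    (Finset.mem_filter.mp ((rt Z).equivFin.symm i).2).1
  let R : (Z → ℂ) →ₗ[ℂ] (Fin (rt Z).card → ℂ) :=
    { toFun := fun x i => x ⟨_, hmem i⟩ + x (sz h ⟨_, hmem i⟩)
      map_add' := by
        intro x y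
        funext i
        simp only [Pi.add_apply]
        ring
      map_smul' := by
        intro a x
        funext i
        simp only [Pi.smul_apply, smul_eq_mul, RingHom.id_apply]
        ring }
  have hR : ∀ x, R x = 0 → (star x ⬝ᵥ (HH h).mulVec x).re ≤ 0 := by
    intro x hx
    have h1 : ∀ ρ : Z, 1 / 2 ≤ (ρ : ℂ).re → x (sz h ρ) = - x ρ := by
      intro ρ hρ
      have hm : (ρ : ℂ) ∈ rt Z := Finset.mem_filter.mpr ⟨ρ.2, hρ⟩
      have h2 := congrFun hx ((rt Z).equivFin ⟨(ρ : ℂ), hm⟩)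
      have h3 : x ⟨_, hmem ((rt Z).equivFin ⟨(ρ : ℂ), hm⟩)⟩ + x (sz h ⟨_, hmem ((rt Z).equivFin ⟨(ρ : ℂ), hm⟩)⟩) = 0 := h2
      have h4 : (⟨_, hmem ((rt Z).equivFin ⟨(ρ : ℂ), hm⟩)⟩ : Z) = ρ := by
        apply Subtype.ext
        simp
      rw [h4] at h3
      exact eq_neg_of_add_eq_zero_right h3
    have h2 : ∀ ρ : Z, x (sz h ρ) = - x ρ := by
      intro ρ
      rcases le_total (1 / 2) (ρ : ℂ).re with h3 | h3
      · exact h1 ρ h3
      · have h4 : 1 / 2 ≤ ((sz h ρ : Z) : ℂ).re := by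
          have : ((sz h ρ : Z) : ℂ) = sg (ρ : ℂ) := rfl
          rw [this, sg_re]
          linarith
        have h5 := h1 _ h4
        rw [sz_sz] at h5
        rw [h5, neg_neg]
    have h3 : star x ⬝ᵥ (HH h).mulVec x = ((-∑ ρ : Z, m ρ * ‖x ρ‖ ^ 2 : ℝ) : ℂ) := by
      simp only [dotProduct, HH_mulVec, Pi.star_apply, h2]
      push_cast
      rw [← Finset.sum_neg_distrib]
      refine Finset.sum_congr rfl fun ρ _ => ?_
      have h4 : (star (x ρ)) * (x ρ) = ((‖x ρ‖ ^ 2 : ℝ) : ℂ) := by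
        rw [Complex.star_def, mul_comm, Complex.mul_conj, Complex.normSq_eq_norm_sq]
      calc star (x ρ) * ((m ρ : ℂ) * -x ρ) = -((m ρ : ℂ) * (star (x ρ) * x ρ)) := by ring
        _ = _ := by rw [h4]; push_cast; ring
    rw [h3, Complex.ofReal_re]
    have : 0 ≤ ∑ ρ : Z, m ρ * ‖x ρ‖ ^ 2 := Finset.sum_nonneg fun ρ _ => mul_nonneg (h.nn ρ ρ.2) (sq_nonneg _)
    linarith
  have h1 := inertia (AA_psd L Z c hs h0) (HH_herm h) R hR (by
    rw [HA_trace]
    exact mul_nonneg (setIntegral_nonneg measurableSet_Icc h0) (Finset.sum_nonneg fun ρ hρ => h.nn ρ hρ))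
  rw [HA_trace, HA_sq L c hs h] at h1
  exact h1

end

end Pool.Agent.Helper99.HZ
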