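import Pool.Agent.Helper99.HZ.D
import Pool.Agent.Helper99.HZ.Key
import Pool.Agent.Helper78.SG.Iso

/-!
# HZ block F+: the form factor from below, in the mean, near every point

`ms_lower`: `(∫ s)² N(T) ≤ S ∫ (s * s~) F_T` for every continuous `s ≥ 0` with compact support and every `T > 1` (from `key`).
With `s(x) = p(x - b/2) + p(x + b/2)` and `up_all`: `fplus_gen`, `fplus`:
`(1/t) ∫ (1 - |x-b|/t)_+ F_T(x) dx ≥ 2 - 1/t - t/3 - ε` for all large `T` and ALL real `b`.
-/

set_option autoImplicit false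

open MeasureTheory Set Filter Topology
open scoped ContDiff

namespace Pool.Agent.Helper99.HZ

open Pool.Agent.Helper57.LH Pool.Agent.Helper57.PC Pool.Agent.Helper57.Zeta Pool.Agent.Helper57.FL

/-- autocorrelation -/
noncomputable def hh (p : ℝ → ℝ) (u : ℝ) : ℝ := ∫ x, p x * p (x - u)

section

variable {p : ℝ → ℝ} {c : ℝ}

lemma hh_eq (hs : ∀ x, c ≤ |x| → p x = 0) (u : ℝ) : hh p u = ∫ x in Icc (-c) c, p x * p (x - u) := by
  unfold hh
  symm
  refine setIntegral_eq_integral_of_forall_compl_eq_zero fun x hx => ?_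
  have : c ≤ |x| := by
    by_contra h
    push Not at h
    apply hx
    have := abs_lt.mp h
    exact ⟨by linarith, by linarith⟩
  rw [hs x this, zero_mul]

lemma hh_cont (hp : Continuous p) (hs : ∀ x, c ≤ |x| → p x = 0) : Continuous (hh p) := by
  have e : hh p = fun u => ∫ x in Icc (-c) c, p x * p (x - u) := by
    funext u
    exact hh_eq hs u
  rw [e]
  refine continuous_parametric_integral_of_continuous (f := fun (u x : ℝ) => p x * p (x - u)) ?_ isCompact_Icc
  unfold Function.uncurry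
  fun_prop

lemma hh_nonneg (h0 : ∀ x, 0 ≤ p x) (u : ℝ) : 0 ≤ hh p u :=
  integral_nonneg fun _ => mul_nonneg (h0 _) (h0 _)

lemma hh_supp (hs : ∀ x, c ≤ |x| → p x = 0) {u : ℝ} (hu : 2 * c ≤ |u|) : hh p u = 0 := by
  unfold hh
  rw [← integral_zero ℝ ℝ]
  congr 1
  funext x
  by_cases hx : c ≤ |x|
  · rw [hs x hx, zero_mul]
  · have : c ≤ |x - u| := by
      push Not at hx
      have h1 : |u| ≤ |x| + |x - u| := by
        calc |u| = |x - (x - u)| := by congr 1; ring
          _ ≤ _ := abs_sub _ _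
      linarith
    rw [hs _ this, mul_zero]

lemma hh_even (u : ℝ) : hh p (-u) = hh p u := by
  unfold hh
  rw [← integral_sub_right_eq_self (fun x => p x * p (x - -u)) u]
  congr 1
  funext x
  rw [mul_comm]
  congr 2
  ring

lemma int_swap {K : ℝ → ℝ} (hp : Continuous p) (hK : Continuous K) (hs : ∀ x, c ≤ |x| → p x = 0) :
    ∫ x in Icc (-c) c, ∫ y in Icc (-c) c, p x * p y * K (x - y) = ∫ u, hh p u * K u := by
  have hout : ∀ x, x ∉ Icc (-c) c → p x = 0 := by
    intro x hx
    apply hs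
    by_contra h
    push Not at h
    apply hx
    have := abs_lt.mp h
    exact ⟨by linarith, by linarith⟩
  have h1 : ∫ x in Icc (-c) c, ∫ y in Icc (-c) c, p x * p y * K (x - y) = ∫ x, ∫ y, p x * p y * K (x - y) := by
    rw [setIntegral_eq_integral_of_forall_compl_eq_zero (s := Icc (-c) c)]
    · refine integral_congr_ae (Eventually.of_forall fun x => ?_)
      simp only
      refine setIntegral_eq_integral_of_forall_compl_eq_zero fun y hy => ?_
      rw [hout y hy]
      ring
    · intro x hx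
      simp [hout x hx]
  rw [h1]
  have h2 : ∀ x, ∫ y, p x * p y * K (x - y) = ∫ u, p x * p (x - u) * K u := by
    intro x
    rw [← integral_sub_left_eq_self (fun u => p x * p (x - u) * K u) volume x]
    congr 1
    funext y
    congr 2
    · congr 1
      ring
  simp_rw [h2]
  rw [integral_integral_swap_of_hasCompactSupport (f := fun (x u : ℝ) => p x * p (x - u) * K u)]
  · congr 1
    funext u
    unfold hh
    rw [integral_mul_const]
  · unfold Function.uncurry
    fun_prop
  · refine HasCompactSupport.intro ((isCompact_Icc (a := -c) (b := c)).prod (isCompact_Icc (a := -(2 * c)) (b := 2 * c))) ?_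
    rintro ⟨x, u⟩ hxu
    simp only [Function.uncurry]
    by_cases hx : x ∈ Icc (-c) c
    · have hu : u ∉ Icc (-(2 * c)) (2 * c) := fun hu => hxu ⟨hx, hu⟩
      have : p (x - u) = 0 := by
        apply hout
        intro h
        apply hu
        exact ⟨by linarith [hx.1, h.2], by linarith [hx.2, h.1]⟩
      rw [this]
      ring
    · rw [hout x hx]
      ring

end

lemma sym_Zf (T : ℝ) : Sym (Zf T) mx := by
  have hm : ∀ ρ ∈ Zf T, sg ρ ∈ Zf T := by
    intro ρ hρ
    rw [mem_Zf, isNontrivialZero_iff] at hρ ⊢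
    obtain ⟨h1, h2, h3⟩ := hρ
    have e3 : (sg ρ).im = ρ.im := by unfold sg; simp
    rw [e3]
    unfold sg
    exact ⟨by rw [xi_one_sub, xi_conj, h1, map_zero], h2, h3⟩
  refine ⟨hm, fun ρ _ => ?_, fun ρ _ => mx_nonneg ρ⟩
  unfold sg mx
  rw [order_one_sub, order_conj]

lemma sum_mx_Zf (T : ℝ) : ∑ ρ ∈ Zf T, mx ρ = NT T := by
  rw [← sum_ZT_mx, sum_ZT T (fun ρ => mx ρ)]

lemma card_rt_le (T : ℝ) : ((rt (Zf T)).card : ℝ) ≤ NT T := by
  calc ((rt (Zf T)).card : ℝ) ≤ ((Zf T).card : ℝ) := by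
        exact_mod_cast Finset.card_le_card (Finset.filter_subset _ _)
    _ = ((ZT T).card : ℝ) := by
        have h := sum_ZT T (fun _ => (1:ℝ))
        simp only [Finset.sum_const, nsmul_eq_mul, mul_one] at h
        exact h.symm
    _ = ∑ ρ ∈ ZT T, (1:ℝ) := by simp
    _ ≤ ∑ ρ ∈ ZT T, mx ρ := Finset.sum_le_sum fun ρ _ => Pool.Agent.Helper78.SG.mx_one_le ρ
    _ = NT T := sum_ZT_mx T

/-- the exact inequality -/
theorem ms_lower {T : ℝ} (hT : 1 < T) {s : ℝ → ℝ} (hsc : Continuous s) (h0 : ∀ x, 0 ≤ s x) {c : ℝ}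
    (hs : ∀ x, c ≤ |x| → s x = 0) (hN : 0 < NT T) : (∫ x, s x) ^ 2 * NT T ≤ SN T * ∫ u, hh s u * ff T u := by
  have hT0 : 0 < T := by linarith
  have hL : 0 < Real.log T := Real.log_pos hT
  have hk := key (Real.log T) (Z := Zf T) (m := mx) hsc (c := c) (fun x _ => h0 x) (sym_Zf T)
  have hds : ∀ u, ‖ds (Real.log T) (Zf T) mx u‖ ^ 2 = SN T * ff T u := by
    intro u
    unfold ds ff SN
    have e1 : ∑ ρ ∈ Zf T, (mx ρ : ℂ) * (T : ℂ) ^ ((u : ℂ) * (ρ - 1 / 2)) =
        ∑ ρ ∈ Zf T, (mx ρ : ℂ) * Complex.exp ((u : ℂ) * ((Real.log T : ℂ) * (ρ - 1 / 2))) := by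
      refine Finset.sum_congr rfl fun ρ _ => ?_
      rw [Complex.cpow_def_of_ne_zero (by exact_mod_cast hT0.ne'), ← Complex.ofReal_log hT0.le]
      congr 2
      ring
    rw [e1]
    have hpi := Real.pi_pos
    generalize ∑ ρ ∈ Zf T, (mx ρ : ℂ) * Complex.exp ((u : ℂ) * ((Real.log T : ℂ) * (ρ - 1 / 2))) = D
    field_simp
  simp_rw [hds] at hk
  have hfc := ff_cont hT
  rw [int_swap (K := fun u => SN T * ff T u) hsc (continuous_const.mul hfc) hs, sum_mx_Zf] at hk
  have hout : ∀ x, x ∉ Icc (-c) c → s x = 0 := by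
    intro x hx
    apply hs
    by_contra h
    push Not at h
    apply hx
    have := abs_lt.mp h
    exact ⟨by linarith, by linarith⟩
  rw [setIntegral_eq_integral_of_forall_compl_eq_zero hout] at hk
  have hI : ∫ u, hh s u * (SN T * ff T u) = SN T * ∫ u, hh s u * ff T u := by
    rw [← integral_const_mul]
    congr 1
    funext u
    ring
  rw [hI] at hk
  have hS := SN_pos hT
  have hI0 : 0 ≤ SN T * ∫ u, hh s u * ff T u :=
    mul_nonneg hS.le (integral_nonneg fun u => mul_nonneg (hh_nonneg h0 u) (ff_nonneg hT.le u))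
  have hc := card_rt_le T
  have h3 : ((∫ x, s x) * NT T) ^ 2 ≤ NT T * (SN T * ∫ u, hh s u * ff T u) :=
    hk.trans (mul_le_mul_of_nonneg_right hc hI0)
  have h4 : NT T * ((∫ x, s x) ^ 2 * NT T) ≤ NT T * (SN T * ∫ u, hh s u * ff T u) := by
    calc NT T * ((∫ x, s x) ^ 2 * NT T) = ((∫ x, s x) * NT T) ^ 2 := by ring
      _ ≤ _ := h3
  exact le_of_mul_le_mul_left h4 hN

lemma hh_int {p : ℝ → ℝ} {c : ℝ} (hp : Continuous p) (hs : ∀ x, c ≤ |x| → p x = 0) {K : ℝ → ℝ} (hK : Continuous K) (b : ℝ) :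
    Integrable (fun u => hh p (u - b) * K u) := by
  refine Continuous.integrable_of_hasCompactSupport ?_ ?_
  · exact ((hh_cont hp hs).comp (by fun_prop)).mul hK
  · refine HasCompactSupport.intro (isCompact_Icc (a := b - 2 * c) (b := b + 2 * c)) fun u hu => ?_
    have : 2 * c ≤ |u - b| := by
      by_contra h
      push Not at h
      apply hu
      have := abs_lt.mp h
      exact ⟨by linarith, by linarith⟩
    rw [hh_supp hs this, zero_mul]

private lemma int4_99 {a b c d : ℝ → ℝ} (ha : Integrable a) (hb : Integrable b) (hc : Integrable c) (hd : Integrable d) :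
    ∫ x, ((a x + b x) + (c x + d x)) = ((∫ x, a x) + ∫ x, b x) + ((∫ x, c x) + ∫ x, d x) := by
  have h1 : ∫ x, ((a x + b x) + (c x + d x)) = (∫ x, (a x + b x)) + ∫ x, (c x + d x) := integral_add (ha.add hb) (hc.add hd)
  rw [h1, integral_add ha hb, integral_add hc hd]

private lemma int3_99 {a b c : ℝ → ℝ} (ha : Integrable a) (hb : Integrable b) (hc : Integrable c) :
    ∫ x, ((a x + b x) + c x) = ((∫ x, a x) + ∫ x, b x) + ∫ x, c x := by
  have h1 : ∫ x, ((a x + b x) + c x) = (∫ x, (a x + b x)) + ∫ x, c x := integral_add (ha.add hb) hc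
  rw [h1, integral_add ha hb]

/-- the autocorrelation of two bumps -/
lemma hh_two {p : ℝ → ℝ} {c : ℝ} (hp : Continuous p) (hs : ∀ x, c ≤ |x| → p x = 0) (β u : ℝ) :
    hh (fun x => p (x - β) + p (x + β)) u = 2 * hh p u + hh p (u - 2 * β) + hh p (u + 2 * β) := by
  have hint : ∀ v e : ℝ, Integrable (fun x => p (x - e) * p (x - v)) := by
    intro v e
    refine Continuous.integrable_of_hasCompactSupport (by fun_prop) ?_
    refine HasCompactSupport.intro (isCompact_Icc (a := e - c) (b := e + c)) fun x hx => ?_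
    have : c ≤ |x - e| := by
      by_contra h
      push Not at h
      apply hx
      have := abs_lt.mp h
      exact ⟨by linarith, by linarith⟩
    rw [hs _ this, zero_mul]
  have e1 : ∀ x, (p (x - β) + p (x + β)) * (p (x - u - β) + p (x - u + β)) =
      (p (x - β) * p (x - (u + β)) + p (x - β) * p (x - (u - β))) +
        (p (x - -β) * p (x - (u + β)) + p (x - -β) * p (x - (u - β))) := by
    intro x
    rw [show x - u - β = x - (u + β) by ring, show x - u + β = x - (u - β) by ring, show x - -β = x + β by ring]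
    ring
  unfold hh
  simp_rw [e1]
  rw [int4_99 (hint _ _) (hint _ _) (hint _ _) (hint _ _)]
  have sh : ∀ v e : ℝ, ∫ x, p (x - e) * p (x - v) = ∫ x, p x * p (x - (v - e)) := by
    intro v e
    rw [← integral_sub_right_eq_self (fun x => p x * p (x - (v - e))) e]
    congr 1
    funext x
    congr 2
    ring
  rw [sh, sh, sh, sh, show u + β - β = u by ring, show u - β - β = u - 2 * β by ring, show u + β - -β = u + 2 * β by ring,
    show u - β - -β = u by ring]
  ring

/-- **F+, exact form**: two bumps at distance `b` -/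
theorem two_bumps {T : ℝ} (hT : 1 < T) {p : ℝ → ℝ} (hp : Continuous p) (h0 : ∀ x, 0 ≤ p x) {c : ℝ}
    (hs : ∀ x, c ≤ |x| → p x = 0) (hN : 0 < NT T) (b : ℝ) :
    2 * (∫ x, p x) ^ 2 * NT T ≤ SN T * ((∫ u, hh p u * ff T u) + ∫ u, hh p (u - b) * ff T u) := by
  have hT0 : 0 < T := by linarith
  have hfc := ff_cont hT
  have hpi : Integrable p := by
    refine hp.integrable_of_hasCompactSupport ?_
    refine HasCompactSupport.intro (isCompact_Icc (a := -c) (b := c)) fun x hx => ?_
    apply hs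
    by_contra h
    push Not at h
    apply hx
    have := abs_lt.mp h
    exact ⟨by linarith, by linarith⟩
  have h1 := ms_lower hT (s := fun x => p (x - b / 2) + p (x + b / 2)) (by fun_prop)
    (fun x => add_nonneg (h0 _) (h0 _)) (c := c + |b| / 2) (fun x hx => by
      have e1 : c ≤ |x - b / 2| := by
        have : |x| ≤ |x - b / 2| + |b / 2| := by
          calc |x| = |(x - b / 2) + b / 2| := by congr 1; ring
            _ ≤ _ := abs_add_le _ _
        rw [abs_div, abs_two] at this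
        linarith
      have e2 : c ≤ |x + b / 2| := by
        have : |x| ≤ |x + b / 2| + |b / 2| := by
          calc |x| = |(x + b / 2) - b / 2| := by congr 1; ring
            _ ≤ _ := abs_sub _ _
        rw [abs_div, abs_two] at this
        linarith
      rw [hs _ e1, hs _ e2, add_zero]) hN
  have e1 : ∫ x, (p (x - b / 2) + p (x + b / 2)) = 2 * ∫ x, p x := by
    rw [integral_add (hpi.comp_sub_right _) (hpi.comp_add_right _), integral_sub_right_eq_self p,
      integral_add_right_eq_self p]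
    ring
  have e2 : ∫ u, hh (fun x => p (x - b / 2) + p (x + b / 2)) u * ff T u =
      2 * (∫ u, hh p u * ff T u) + 2 * ∫ u, hh p (u - b) * ff T u := by
    have i1 : Integrable (fun u => hh p u * ff T u) := by simpa using hh_int hp hs hfc 0
    have i2 := hh_int hp hs hfc b
    have i3 : Integrable (fun u => hh p (u + b) * ff T u) := by simpa using hh_int hp hs hfc (-b)
    have e3 : ∀ u, hh (fun x => p (x - b / 2) + p (x + b / 2)) u * ff T u =
        (2 * (hh p u * ff T u) + hh p (u - b) * ff T u) + hh p (u + b) * ff T u := by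
      intro u
      rw [hh_two hp hs, show 2 * (b / 2) = b by ring]
      ring
    simp_rw [e3]
    rw [int3_99 (i1.const_mul 2) i2 i3, integral_const_mul]
    have e4 : ∫ u, hh p (u + b) * ff T u = ∫ u, hh p (u - b) * ff T u := by
      rw [← integral_neg_eq_self (fun u => hh p (u + b) * ff T u)]
      congr 1
      funext u
      rw [ff_even hT0, ← hh_even (u - b)]
      congr 2
      ring
    rw [e4]
    ring
  rw [e1, e2] at h1
  nlinarith

lemma NT_pos_ev : ∀ᶠ T : ℝ in atTop, 0 < NT T := by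
  obtain ⟨T₀, hT₀⟩ := NT_lower (1 / 2) (by norm_num)
  filter_upwards [eventually_ge_atTop T₀, eventually_gt_atTop (1:ℝ)] with T h1 h2
  have h3 := hT₀ T h1
  have h4 : 0 < T * Real.log T / (2 * Real.pi) := SN_pos h2
  linarith

/-- **F+, general kernel, uniform in `b`** -/
theorem fplus_gen {p : ℝ → ℝ} (hp : Continuous p) (h0 : ∀ x, 0 ≤ p x) {θ : ℝ} (hθ1 : θ < 1)
    (hs : ∀ x, θ / 2 ≤ |x| → p x = 0) {ε : ℝ} (hε : 0 < ε) :
    ∀ᶠ T : ℝ in atTop, ∀ b : ℝ, 2 * (∫ x, p x) ^ 2 - hh p 0 - (∫ x, |x| * hh p x) - ε ≤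
      ∫ u, hh p (u - b) * ff T u := by
  obtain ⟨I, hI⟩ : ∃ I, I = ∫ x, p x := ⟨_, rfl⟩
  obtain ⟨e, he⟩ : ∃ e, e = ε / (4 * (I ^ 2 + 1)) := ⟨_, rfl⟩
  have he0 : 0 < e := by rw [he]; positivity
  obtain ⟨T₀, hT₀⟩ := NT_lower e he0
  have hup := up_all (hh_cont hp hs) (hh_nonneg h0) hθ1 (fun x hx => hh_supp hs (by linarith : 2 * (θ / 2) ≤ |x|))
    (show 0 < ε / 2 by linarith)
  filter_upwards [hup, eventually_ge_atTop T₀, eventually_gt_atTop (1:ℝ), NT_pos_ev] with T h1 h2 h3 h4 b
  have hS := SN_pos h3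
  have h5 := two_bumps h3 hp h0 hs h4 b
  have h6 : (1 - e) * SN T ≤ NT T := hT₀ T h2
  rw [← hI] at h5 ⊢
  have h7 : 2 * I ^ 2 * ((1 - e) * SN T) ≤ SN T * ((∫ u, hh p u * ff T u) + ∫ u, hh p (u - b) * ff T u) :=
    (mul_le_mul_of_nonneg_left h6 (by positivity)).trans h5
  have h8 : 2 * I ^ 2 * (1 - e) ≤ (∫ u, hh p u * ff T u) + ∫ u, hh p (u - b) * ff T u := by
    have : SN T * (2 * I ^ 2 * (1 - e)) ≤ SN T * ((∫ u, hh p u * ff T u) + ∫ u, hh p (u - b) * ff T u) := by
      calc SN T * (2 * I ^ 2 * (1 - e)) = 2 * I ^ 2 * ((1 - e) * SN T) := by ring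
        _ ≤ _ := h7
    exact le_of_mul_le_mul_left this hS
  have h9 : 2 * I ^ 2 * e ≤ ε / 2 := by
    rw [he]
    have : 2 * I ^ 2 * (ε / (4 * (I ^ 2 + 1))) = ε / 2 * (I ^ 2 / (I ^ 2 + 1)) := by
      field_simp
      ring
    rw [this]
    have h10 : I ^ 2 / (I ^ 2 + 1) ≤ 1 := by
      rw [div_le_one (by positivity)]
      linarith
    nlinarith
  linarith

/-! ### the Fejér kernel -/

/-- trapezoid -/
noncomputable def tz (th δ x : ℝ) : ℝ := 1 / th * max 0 (min 1 ((th / 2 - |x|) / δ))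

lemma tz_cont (th δ : ℝ) : Continuous (tz th δ) := by
  unfold tz
  fun_prop

lemma tz_nonneg {th : ℝ} (hth : 0 < th) (δ x : ℝ) : 0 ≤ tz th δ x := by
  unfold tz
  positivity

lemma tz_le {th : ℝ} (hth : 0 < th) (δ x : ℝ) : tz th δ x ≤ 1 / th := by
  unfold tz
  have h1 : max 0 (min 1 ((th / 2 - |x|) / δ)) ≤ 1 := max_le zero_le_one (min_le_left _ _)
  have h2 : 0 ≤ 1 / th := by positivity
  calc 1 / th * max 0 (min 1 ((th / 2 - |x|) / δ)) ≤ 1 / th * 1 := mul_le_mul_of_nonneg_left h1 h2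
    _ = _ := mul_one _

lemma tz_supp {th δ : ℝ} (hδ : 0 < δ) {x : ℝ} (hx : th / 2 ≤ |x|) : tz th δ x = 0 := by
  unfold tz
  have h1 : (th / 2 - |x|) / δ ≤ 0 := div_nonpos_of_nonpos_of_nonneg (by linarith) hδ.le
  rw [max_eq_left ((min_le_right _ _).trans h1), mul_zero]

lemma tz_int {th δ : ℝ} (hth : 0 < th) (hδ : 0 < δ) (hδ2 : δ < th / 2) : 1 - 2 * δ / th ≤ ∫ x, tz th δ x := by
  have hi : Integrable (tz th δ) := by
    refine (tz_cont th δ).integrable_of_hasCompactSupport ?_
    refine HasCompactSupport.intro (isCompact_Icc (a := -(th / 2)) (b := th / 2)) fun x hx => ?_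
    apply tz_supp hδ
    by_contra h
    push Not at h
    apply hx
    have := abs_lt.mp h
    exact ⟨by linarith, by linarith⟩
  calc 1 - 2 * δ / th = ∫ x in Icc (-(th / 2 - δ)) (th / 2 - δ), 1 / th := by
        rw [setIntegral_const, Real.volume_real_Icc_of_le (by linarith), smul_eq_mul]
        field_simp
        ring
    _ ≤ ∫ x in Icc (-(th / 2 - δ)) (th / 2 - δ), tz th δ x := by
        refine setIntegral_mono_on (integrableOn_const (by simp)) hi.integrableOn measurableSet_Icc fun x hx => ?_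
        have h1 : |x| ≤ th / 2 - δ := abs_le.mpr ⟨hx.1, hx.2⟩
        unfold tz
        have h2 : 1 ≤ (th / 2 - |x|) / δ := by
          rw [le_div_iff₀ hδ]
          linarith
        rw [min_eq_left h2, max_eq_right zero_le_one, mul_one]
    _ ≤ ∫ x, tz th δ x := setIntegral_le_integral hi (Eventually.of_forall fun x => tz_nonneg hth δ x)

lemma hh_tz_le {th δ : ℝ} (hth : 0 < th) (hδ : 0 < δ) (u : ℝ) : hh (tz th δ) u ≤ fej th u := by
  have hout : ∀ x, x ∉ Icc (-(th / 2)) (th / 2) → tz th δ x = 0 := by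
    intro x hx
    apply tz_supp hδ
    by_contra h
    push Not at h
    apply hx
    have := abs_lt.mp h
    exact ⟨by linarith, by linarith⟩
  have hsupp : ∀ x, x ∉ Icc (max (-(th / 2)) (u - th / 2)) (min (th / 2) (u + th / 2)) → tz th δ x * tz th δ (x - u) = 0 := by
    intro x hx
    by_cases h1 : x ∈ Icc (-(th / 2)) (th / 2)
    · have h2 : x - u ∉ Icc (-(th / 2)) (th / 2) := by
        intro h2
        apply hx
        exact ⟨max_le h1.1 (by linarith [h2.1]), le_min h1.2 (by linarith [h2.2])⟩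
      rw [hout _ h2, mul_zero]
    · rw [hout _ h1, zero_mul]
  unfold hh
  rw [← setIntegral_eq_integral_of_forall_compl_eq_zero hsupp]
  by_cases hu : th ≤ |u|
  · have he : min (th / 2) (u + th / 2) ≤ max (-(th / 2)) (u - th / 2) := by
      rw [le_abs] at hu
      rcases hu with h | h
      · exact (min_le_left _ _).trans (le_trans (by linarith) (le_max_right _ _))
      · exact (min_le_right _ _).trans (le_trans (by linarith) (le_max_left _ _))
    rw [fej_supp hu]
    have h0 : volume (Icc (max (-(th / 2)) (u - th / 2)) (min (th / 2) (u + th / 2))) = 0 := by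
      rw [Real.volume_Icc, ENNReal.ofReal_eq_zero]
      linarith
    rw [setIntegral_measure_zero _ h0]
  · push Not at hu
    have hw : max (-(th / 2)) (u - th / 2) ≤ min (th / 2) (u + th / 2) := by
      have := abs_lt.mp hu
      exact max_le (le_min (by linarith) (by linarith)) (le_min (by linarith) (by linarith))
    have hlen : min (th / 2) (u + th / 2) - max (-(th / 2)) (u - th / 2) = th - |u| := by
      rcases le_total 0 u with h | h
      · rw [abs_of_nonneg h, min_eq_left (by linarith), max_eq_right (by linarith)]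
        ring
      · rw [abs_of_nonpos h, min_eq_right (by linarith), max_eq_left (by linarith)]
        ring
    calc ∫ x in Icc (max (-(th / 2)) (u - th / 2)) (min (th / 2) (u + th / 2)), tz th δ x * tz th δ (x - u) ≤
        ∫ x in Icc (max (-(th / 2)) (u - th / 2)) (min (th / 2) (u + th / 2)), 1 / th * (1 / th) := by
          refine setIntegral_mono_on ?_ (integrableOn_const (by simp)) measurableSet_Icc fun x _ => ?_
          · have hc : Continuous fun x => tz th δ x * tz th δ (x - u) :=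
              (tz_cont th δ).mul ((tz_cont th δ).comp (by fun_prop))
            exact hc.integrableOn_Icc
          · exact mul_le_mul (tz_le hth δ x) (tz_le hth δ _) (tz_nonneg hth δ _) (by positivity)
      _ = fej th u := by
          rw [setIntegral_const, Real.volume_real_Icc_of_le hw, hlen, smul_eq_mul]
          unfold fej
          rw [max_eq_right (by linarith)]
          field_simp

lemma fej_int (th b : ℝ) {K : ℝ → ℝ} (hK : Continuous K) : Integrable (fun u => fej th (u - b) * K u) := by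
  refine Continuous.integrable_of_hasCompactSupport ?_ ?_
  · exact ((fej_cont th).comp (by fun_prop)).mul hK
  · refine HasCompactSupport.intro (isCompact_Icc (a := b - th) (b := b + th)) fun u hu => ?_
    have : th ≤ |u - b| := by
      by_contra h
      push Not at h
      apply hu
      have := abs_lt.mp h
      exact ⟨by linarith, by linarith⟩
    rw [fej_supp this, zero_mul]

/-- monotonicity in the kernel -/
private lemma mono99 {T : ℝ} (hT : 1 < T) {th δ : ℝ} (hth : 0 < th) (hδ : 0 < δ) (b : ℝ) :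
    ∫ u, hh (tz th δ) (u - b) * ff T u ≤ ∫ u, fej th (u - b) * ff T u := by
  refine integral_mono (hh_int (c := th / 2) (tz_cont th δ) (fun x hx => tz_supp hδ hx) (ff_cont hT) b)
    (fej_int th b (ff_cont hT)) fun u => ?_
  exact mul_le_mul_of_nonneg_right (hh_tz_le hth hδ _) (ff_nonneg hT.le u)

/-- **the mean of the form factor over a long interval, exact inequality**:
`N(T) ≤ S ∫ (K - |x|)_+ / K² F_T(x) dx` for all `K > 0`, `T > 1` -/
theorem long_mean {T : ℝ} (hT : 1 < T) {K : ℝ} (hK : 0 < K) (hN : 0 < NT T) :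
    NT T ≤ SN T * ∫ u, fej K u * ff T u := by
  have hS := SN_pos hT
  have hlim : Tendsto (fun δ : ℝ => (1 - 2 * δ / K) ^ 2 * NT T) (𝓝[>] 0) (𝓝 (NT T)) := by
    have h1 : Tendsto (fun δ : ℝ => (1 - 2 * δ / K) ^ 2 * NT T) (𝓝 0) (𝓝 ((1 - 2 * 0 / K) ^ 2 * NT T)) := by
      apply Continuous.tendsto
      fun_prop
    have h2 : (1 - 2 * 0 / K) ^ 2 * NT T = NT T := by simp
    rw [h2] at h1
    exact h1.mono_left nhdsWithin_le_nhds
  refine le_of_tendsto hlim ?_
  filter_upwards [self_mem_nhdsWithin, mem_nhdsWithin_of_mem_nhds (gt_mem_nhds (show (0:ℝ) < K / 2 by linarith))]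
    with δ hδ hδ2
  have hδ0 : 0 < δ := hδ
  have h1 := ms_lower hT (tz_cont K δ) (fun x => tz_nonneg hK δ x) (c := K / 2) (fun x hx => tz_supp hδ0 hx) hN
  have h2 := tz_int hK hδ0 hδ2
  have h3 : 0 ≤ 1 - 2 * δ / K := by
    have : 2 * δ / K ≤ 1 := by
      rw [div_le_one hK]
      linarith
    linarith
  have h4 : (1 - 2 * δ / K) ^ 2 ≤ (∫ x, tz K δ x) ^ 2 := by gcongr
  have h5 := mono99 hT hK hδ0 0
  simp only [sub_zero] at h5
  calc (1 - 2 * δ / K) ^ 2 * NT T ≤ (∫ x, tz K δ x) ^ 2 * NT T := mul_le_mul_of_nonneg_right h4 hN.le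
    _ ≤ _ := h1
    _ ≤ _ := mul_le_mul_of_nonneg_left h5 hS.le

/-- **two Fejér kernels at distance `b`, exact inequality** -/
theorem two_fejer {T : ℝ} (hT : 1 < T) {th : ℝ} (hth : 0 < th) (hN : 0 < NT T) (b : ℝ) :
    2 * NT T ≤ SN T * ((∫ u, fej th u * ff T u) + ∫ u, fej th (u - b) * ff T u) := by
  have hS := SN_pos hT
  have hlim : Tendsto (fun δ : ℝ => 2 * (1 - 2 * δ / th) ^ 2 * NT T) (𝓝[>] 0) (𝓝 (2 * NT T)) := by
    have h1 : Tendsto (fun δ : ℝ => 2 * (1 - 2 * δ / th) ^ 2 * NT T) (𝓝 0) (𝓝 (2 * (1 - 2 * 0 / th) ^ 2 * NT T)) := by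
      apply Continuous.tendsto
      fun_prop
    have h2 : 2 * (1 - 2 * 0 / th) ^ 2 * NT T = 2 * NT T := by simp
    rw [h2] at h1
    exact h1.mono_left nhdsWithin_le_nhds
  refine le_of_tendsto hlim ?_
  filter_upwards [self_mem_nhdsWithin, mem_nhdsWithin_of_mem_nhds (gt_mem_nhds (show (0:ℝ) < th / 2 by linarith))]
    with δ hδ hδ2
  have hδ0 : 0 < δ := hδ
  have h1 := two_bumps hT (tz_cont th δ) (fun x => tz_nonneg hth δ x) (c := th / 2) (fun x hx => tz_supp hδ0 hx) hN b
  have h2 := tz_int hth hδ0 hδ2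
  have h3 : 0 ≤ 1 - 2 * δ / th := by
    have : 2 * δ / th ≤ 1 := by
      rw [div_le_one hth]
      linarith
    linarith
  have h4 : (1 - 2 * δ / th) ^ 2 ≤ (∫ x, tz th δ x) ^ 2 := by gcongr
  have h5 := mono99 hT hth hδ0 0
  simp only [sub_zero] at h5
  have h6 := mono99 hT hth hδ0 b
  calc 2 * (1 - 2 * δ / th) ^ 2 * NT T ≤ 2 * (∫ x, tz th δ x) ^ 2 * NT T := by gcongr
    _ ≤ _ := h1
    _ ≤ _ := mul_le_mul_of_nonneg_left (add_le_add h5 h6) hS.le

/-- **F+**: for every `0 < t < 1` and all large `T`, uniformly in the real number `b` -/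
theorem fplus {t : ℝ} (ht : 0 < t) (ht1 : t < 1) {ε : ℝ} (hε : 0 < ε) :
    ∀ᶠ T : ℝ in atTop, ∀ b : ℝ, 2 - 1 / t - t / 3 - ε ≤ ∫ x, fej t (x - b) * ff T x := by
  obtain ⟨T₀, hT₀⟩ := NT_lower (ε / 4) (by linarith)
  filter_upwards [fejer_limit ht ht1 (show 0 < ε / 2 by linarith), eventually_ge_atTop T₀,
    eventually_gt_atTop (1:ℝ), NT_pos_ev] with T h1 h2 h3 h4 b
  have hS := SN_pos h3
  have h5 := two_fejer h3 ht h4 b
  have h6 : (1 - ε / 4) * SN T ≤ NT T := hT₀ T h2
  have h7 : SN T * (2 * (1 - ε / 4)) ≤ SN T * ((∫ u, fej t u * ff T u) + ∫ u, fej t (u - b) * ff T u) := by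
    calc SN T * (2 * (1 - ε / 4)) = 2 * ((1 - ε / 4) * SN T) := by ring
      _ ≤ 2 * NT T := by linarith
      _ ≤ _ := h5
  have h8 := le_of_mul_le_mul_left h7 hS
  linarith

end Pool.Agent.Helper99.HZ
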