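import Pool.Agent.Helper99.HZ.Up

/-!
# HZ block D: the trace side for the box weight

`g = 1/θ` on `[-θ/2, θ/2]`, `g * g = (θ - |x|)_+ / θ²`, `Gam T θ w = ∫ g(x) T^{xw} dx`.
* `trace_id`: `∑∑ m_ρ m_σ Gam(ρ-σ)² = (T log T / 2π) ∫ (g*g) F_T` (all zeros, no RH; reflection `σ ↦ 1 - conj σ`);
* `fejer_limit`: `∫ (g*g) F_T ≤ 1/θ + θ/3 + ε` for large `T`, `0 < θ < 1`.
-/

set_option autoImplicit false

open MeasureTheory Set Filter Topology
open scoped ContDiff

namespace Pool.Agent.Helper99.HZ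

open Pool.Agent.Helper57.LH Pool.Agent.Helper57.PC Pool.Agent.Helper57.Zeta Pool.Agent.Helper57.FL

/-- the Fourier-Laplace transform of the box of mass one on `[-θ/2, θ/2]`, at scale `log T` -/
noncomputable def Gam (T th : ℝ) (w : ℂ) : ℂ :=
  (th : ℂ)⁻¹ * ∫ x in (-(th / 2))..(th / 2), Complex.exp ((x : ℂ) * ((Real.log T : ℂ) * w))

/-- the Fejér weight -/
noncomputable def fej (th x : ℝ) : ℝ := max 0 (th - |x|) / th ^ 2

lemma fej_cont (th : ℝ) : Continuous (fej th) := by
  unfold fej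
  fun_prop

lemma fej_nonneg (th x : ℝ) : 0 ≤ fej th x := by
  unfold fej
  positivity

lemma fej_supp {th x : ℝ} (h : th ≤ |x|) : fej th x = 0 := by
  unfold fej
  rw [max_eq_left (by linarith), zero_div]

/-- `∫_{-c}^{c} e^{xw} dx` squared -/
lemma box_sq {c : ℝ} (hc : 0 < c) (w : ℂ) :
    (∫ x in (-c)..c, Complex.exp ((x : ℂ) * w)) ^ 2 =
      ∫ u in (-(2 * c))..(2 * c), ((2 * c - |u| : ℝ) : ℂ) * Complex.exp ((u : ℂ) * w) := by
  have hcont : Continuous fun u : ℝ => ((2 * c - |u| : ℝ) : ℂ) * Complex.exp ((u : ℂ) * w) := by fun_prop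
  have hsplit : ∫ u in (-(2 * c))..(2 * c), ((2 * c - |u| : ℝ) : ℂ) * Complex.exp ((u : ℂ) * w) =
      (∫ u in (-(2 * c))..0, (2 * (c : ℂ) + u) * Complex.exp ((u : ℂ) * w)) +
      ∫ u in (0:ℝ)..(2 * c), (2 * (c : ℂ) - u) * Complex.exp ((u : ℂ) * w) := by
    rw [← intervalIntegral.integral_add_adjacent_intervals (b := 0) (hcont.intervalIntegrable _ _)
      (hcont.intervalIntegrable _ _)]
    congr 1
    · refine intervalIntegral.integral_congr fun u hu => ?_
      rw [uIcc_of_le (by linarith)] at hu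
      show ((2 * c - |u| : ℝ) : ℂ) * Complex.exp ((u : ℂ) * w) = (2 * (c : ℂ) + u) * Complex.exp ((u : ℂ) * w)
      rw [abs_of_nonpos hu.2]
      push_cast
      ring
    · refine intervalIntegral.integral_congr fun u hu => ?_
      rw [uIcc_of_le (by linarith)] at hu
      show ((2 * c - |u| : ℝ) : ℂ) * Complex.exp ((u : ℂ) * w) = (2 * (c : ℂ) - u) * Complex.exp ((u : ℂ) * w)
      rw [abs_of_nonneg hu.1]
      push_cast
      ring
  rw [hsplit]
  have hexp : ∀ u : ℝ, HasDerivAt (fun u : ℝ => Complex.exp ((u : ℂ) * w)) (Complex.exp ((u : ℂ) * w) * w) u := by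
    intro u
    have h1 : HasDerivAt (fun u : ℝ => (u : ℂ) * w) w u := by
      simpa using (Complex.ofRealCLM.hasDerivAt (x := u)).mul_const w
    exact h1.cexp
  by_cases hw : w = 0
  · subst hw
    simp only [mul_zero, Complex.exp_zero, mul_one]
    have e1 : ∫ x in (-c)..c, (1 : ℂ) = 2 * (c : ℂ) := by
      rw [intervalIntegral.integral_const]
      simp
      ring
    have e2 : ∫ u in (-(2 * c))..0, (2 * (c : ℂ) + u) = 2 * (c : ℂ) ^ 2 := by
      have h1 : ∀ u ∈ uIcc (-(2 * c)) 0, HasDerivAt (fun u : ℝ => 2 * (c : ℂ) * u + (u : ℂ) ^ 2 / 2) (2 * (c : ℂ) + u) u := by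
        intro u _
        have h2 : HasDerivAt (fun u : ℝ => (u : ℂ)) 1 u := Complex.ofRealCLM.hasDerivAt (x := u)
        have h3 := (h2.const_mul (2 * (c : ℂ))).add ((h2.pow 2).div_const 2)
        refine (h3.congr_deriv ?_).congr_of_eventuallyEq (Eventually.of_forall fun x => ?_)
        · push_cast
          ring
        · simp
      rw [intervalIntegral.integral_eq_sub_of_hasDerivAt h1 (Continuous.intervalIntegrable (by fun_prop) _ _)]
      push_cast
      ring
    have e3 : ∫ u in (0:ℝ)..(2 * c), (2 * (c : ℂ) - u) = 2 * (c : ℂ) ^ 2 := by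
      have h1 : ∀ u ∈ uIcc (0:ℝ) (2 * c), HasDerivAt (fun u : ℝ => 2 * (c : ℂ) * u - (u : ℂ) ^ 2 / 2) (2 * (c : ℂ) - u) u := by
        intro u _
        have h2 : HasDerivAt (fun u : ℝ => (u : ℂ)) 1 u := Complex.ofRealCLM.hasDerivAt (x := u)
        have h3 := (h2.const_mul (2 * (c : ℂ))).sub ((h2.pow 2).div_const 2)
        refine (h3.congr_deriv ?_).congr_of_eventuallyEq (Eventually.of_forall fun x => ?_)
        · push_cast
          ring
        · simp
      rw [intervalIntegral.integral_eq_sub_of_hasDerivAt h1 (Continuous.intervalIntegrable (by fun_prop) _ _)]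
      push_cast
      ring
    rw [e1, e2, e3]
    ring
  · have e1 : ∫ x in (-c)..c, Complex.exp ((x : ℂ) * w) =
        (Complex.exp ((c : ℂ) * w) - Complex.exp (-(c : ℂ) * w)) / w := by
      have h1 : ∀ u ∈ uIcc (-c) c, HasDerivAt (fun u : ℝ => Complex.exp ((u : ℂ) * w) / w) (Complex.exp ((u : ℂ) * w)) u := by
        intro u _
        have h2 := (hexp u).div_const w
        rwa [mul_div_cancel_right₀ _ hw] at h2
      rw [intervalIntegral.integral_eq_sub_of_hasDerivAt h1 (Continuous.intervalIntegrable (by fun_prop) _ _)]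
      push_cast
      ring
    have e2 : ∫ u in (-(2 * c))..0, (2 * (c : ℂ) + u) * Complex.exp ((u : ℂ) * w) =
        2 * c / w - 1 / w ^ 2 + Complex.exp (-(2 * c : ℂ) * w) / w ^ 2 := by
      have h1 : ∀ u ∈ uIcc (-(2 * c)) 0, HasDerivAt (fun u : ℝ => (2 * (c : ℂ) + u) * (Complex.exp ((u : ℂ) * w) / w) -
          Complex.exp ((u : ℂ) * w) / w ^ 2) ((2 * (c : ℂ) + u) * Complex.exp ((u : ℂ) * w)) u := by
        intro u _
        have h2 : HasDerivAt (fun u : ℝ => (u : ℂ)) 1 u := Complex.ofRealCLM.hasDerivAt (x := u)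
        have h3 := ((h2.const_add (2 * (c : ℂ))).mul ((hexp u).div_const w)).sub ((hexp u).div_const (w ^ 2))
        refine (h3.congr_deriv ?_).congr_of_eventuallyEq (Eventually.of_forall fun x => ?_)
        · field_simp
          ring
        · simp
      rw [intervalIntegral.integral_eq_sub_of_hasDerivAt h1 (Continuous.intervalIntegrable (by fun_prop) _ _)]
      push_cast
      simp only [zero_mul, Complex.exp_zero, add_zero]
      ring_nf
    have e3 : ∫ u in (0:ℝ)..(2 * c), (2 * (c : ℂ) - u) * Complex.exp ((u : ℂ) * w) =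
        Complex.exp ((2 * c : ℂ) * w) / w ^ 2 - 2 * c / w - 1 / w ^ 2 := by
      have h1 : ∀ u ∈ uIcc (0:ℝ) (2 * c), HasDerivAt (fun u : ℝ => (2 * (c : ℂ) - u) * (Complex.exp ((u : ℂ) * w) / w) +
          Complex.exp ((u : ℂ) * w) / w ^ 2) ((2 * (c : ℂ) - u) * Complex.exp ((u : ℂ) * w)) u := by
        intro u _
        have h2 : HasDerivAt (fun u : ℝ => (u : ℂ)) 1 u := Complex.ofRealCLM.hasDerivAt (x := u)
        have h3 := ((h2.const_sub (2 * (c : ℂ))).mul ((hexp u).div_const w)).add ((hexp u).div_const (w ^ 2))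
        refine (h3.congr_deriv ?_).congr_of_eventuallyEq (Eventually.of_forall fun x => ?_)
        · field_simp
          ring
        · simp
      rw [intervalIntegral.integral_eq_sub_of_hasDerivAt h1 (Continuous.intervalIntegrable (by fun_prop) _ _)]
      push_cast
      simp only [zero_mul, Complex.exp_zero, sub_zero]
      ring_nf
    rw [e1, e2, e3]
    have h4 : Complex.exp ((2 * c : ℂ) * w) = Complex.exp ((c : ℂ) * w) ^ 2 := by
      rw [← Complex.exp_nat_mul]
      congr 1
      push_cast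
      ring
    have h5 : Complex.exp (-(2 * c : ℂ) * w) = Complex.exp (-(c : ℂ) * w) ^ 2 := by
      rw [← Complex.exp_nat_mul]
      congr 1
      push_cast
      ring
    have h6 : Complex.exp ((c : ℂ) * w) * Complex.exp (-(c : ℂ) * w) = 1 := by
      rw [← Complex.exp_add]
      simp
    rw [h4, h5]
    generalize Complex.exp ((c : ℂ) * w) = A at h6 ⊢
    generalize Complex.exp (-(c : ℂ) * w) = B at h6 ⊢
    field_simp
    linear_combination (-2 : ℂ) * h6

/-- the square of the exponential sum over the zeros, without conjugation -/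
lemma ff_sum {T : ℝ} (hT : 1 < T) (x : ℝ) :
    ((T * Real.log T / (2 * Real.pi) * ff T x : ℝ) : ℂ) =
      ∑ ρ ∈ Zf T, ∑ σ ∈ Zf T, (mx ρ : ℂ) * (mx σ : ℂ) * Complex.exp ((x : ℂ) * ((Real.log T : ℂ) * (ρ - σ))) := by
  have hT0 : 0 < T := by linarith
  have hL : 0 < Real.log T := Real.log_pos hT
  obtain ⟨D, hD⟩ : ∃ D : ℂ, D = ∑ ρ ∈ Zf T, (mx ρ : ℂ) * Complex.exp ((x : ℂ) * ((Real.log T : ℂ) * (ρ - 1 / 2))) := ⟨_, rfl⟩
  have e1 : ∑ ρ ∈ Zf T, (mx ρ : ℂ) * (T : ℂ) ^ ((x : ℂ) * (ρ - 1 / 2)) = D := by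
    rw [hD]
    refine Finset.sum_congr rfl fun ρ _ => ?_
    rw [Complex.cpow_def_of_ne_zero (by exact_mod_cast hT0.ne'), ← Complex.ofReal_log hT0.le]
    congr 2
    ring
  have e2 : T * Real.log T / (2 * Real.pi) * ff T x = ‖D‖ ^ 2 := by
    unfold ff
    rw [e1]
    have := Real.pi_pos
    field_simp
  rw [e2]
  have e3 : ((‖D‖ ^ 2 : ℝ) : ℂ) = D * starRingEnd ℂ D := by
    rw [Complex.mul_conj, Complex.normSq_eq_norm_sq]
  have e4 : starRingEnd ℂ D = ∑ σ ∈ Zf T, (mx σ : ℂ) * Complex.exp ((x : ℂ) * ((Real.log T : ℂ) * (1 / 2 - σ))) := by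
    rw [← sum_refl99 T (fun σ => Complex.exp ((x : ℂ) * ((Real.log T : ℂ) * (1 / 2 - σ)))), hD, map_sum]
    refine Finset.sum_congr rfl fun ρ _ => ?_
    rw [map_mul, Complex.conj_ofReal, ← Complex.exp_conj, map_mul, map_mul, Complex.conj_ofReal, Complex.conj_ofReal,
      map_sub]
    congr 2
    have : starRingEnd ℂ (1 / 2 : ℂ) = 1 / 2 := by
      rw [map_div₀, map_one, Complex.conj_ofNat]
    rw [this]
    ring
  rw [e3, e4, hD, Finset.sum_mul]
  refine Finset.sum_congr rfl fun ρ _ => ?_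
  rw [Finset.mul_sum]
  refine Finset.sum_congr rfl fun σ _ => ?_
  have e5 : Complex.exp ((x : ℂ) * ((Real.log T : ℂ) * (ρ - σ))) =
      Complex.exp ((x : ℂ) * ((Real.log T : ℂ) * (ρ - 1 / 2))) * Complex.exp ((x : ℂ) * ((Real.log T : ℂ) * (1 / 2 - σ))) := by
    rw [← Complex.exp_add]
    congr 1
    ring
  rw [e5]
  ring

/-- **identity (1)** -/
theorem trace_id {T th : ℝ} (hT : 1 < T) (hth : 0 < th) :
    ∑ ρ ∈ Zf T, ∑ σ ∈ Zf T, (mx ρ : ℂ) * (mx σ : ℂ) * Gam T th (ρ - σ) ^ 2 =
      ((T * Real.log T / (2 * Real.pi) * ∫ x, fej th x * ff T x : ℝ) : ℂ) := by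
  have hT0 : 0 < T := by linarith
  have hsup : ∀ x, x ∉ Icc (-th) th → fej th x * ff T x = 0 := by
    intro x hx
    have : th ≤ |x| := by
      by_contra h
      push Not at h
      apply hx
      have := abs_lt.mp h
      exact ⟨by linarith, by linarith⟩
    rw [fej_supp this, zero_mul]
  have h1 : ∫ x, fej th x * ff T x = ∫ x in (-th)..th, fej th x * ff T x := by
    rw [intervalIntegral.integral_of_le (by linarith), ← integral_Icc_eq_integral_Ioc]
    exact (setIntegral_eq_integral_of_forall_compl_eq_zero hsup).symm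
  rw [h1, ← intervalIntegral.integral_const_mul, ← intervalIntegral.integral_ofReal]
  have h2 : ∀ x ∈ uIcc (-th) th, ((T * Real.log T / (2 * Real.pi) * (fej th x * ff T x) : ℝ) : ℂ) =
      ∑ ρ ∈ Zf T, ∑ σ ∈ Zf T, (mx ρ : ℂ) * (mx σ : ℂ) * ((th : ℂ)⁻¹ ^ 2 * (((th - |x| : ℝ) : ℂ) *
        Complex.exp ((x : ℂ) * ((Real.log T : ℂ) * (ρ - σ))))) := by
    intro x hx
    rw [uIcc_of_le (by linarith)] at hx
    have e1 : T * Real.log T / (2 * Real.pi) * (fej th x * ff T x) =
        fej th x * (T * Real.log T / (2 * Real.pi) * ff T x) := by ring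
    rw [e1, Complex.ofReal_mul, ff_sum hT, Finset.mul_sum]
    refine Finset.sum_congr rfl fun ρ _ => ?_
    rw [Finset.mul_sum]
    refine Finset.sum_congr rfl fun σ _ => ?_
    have e2 : fej th x = (th - |x|) / th ^ 2 := by
      unfold fej
      rw [max_eq_right]
      have : |x| ≤ th := abs_le.mpr ⟨hx.1, hx.2⟩
      linarith
    rw [e2]
    push_cast
    field_simp
  rw [intervalIntegral.integral_congr h2, intervalIntegral.integral_finsetSum]
  · refine Finset.sum_congr rfl fun ρ _ => ?_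
    rw [intervalIntegral.integral_finsetSum]
    · refine Finset.sum_congr rfl fun σ _ => ?_
      rw [intervalIntegral.integral_const_mul, intervalIntegral.integral_const_mul]
      have h3 := box_sq (c := th / 2) (by linarith) ((Real.log T : ℂ) * (ρ - σ))
      rw [show 2 * (th / 2) = th by ring] at h3
      unfold Gam
      rw [mul_pow, h3]
    · intro σ _
      refine Continuous.intervalIntegrable ?_ _ _
      fun_prop
  · intro ρ _
    refine Continuous.intervalIntegrable ?_ _ _
    refine continuous_finsetSum _ fun σ _ => ?_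
    fun_prop

lemma fej_moment {th : ℝ} (hth : 0 < th) : ∫ x, |x| * fej th x = th / 3 := by
  have hc : Continuous fun x : ℝ => |x| * fej th x := continuous_abs.mul (fej_cont th)
  have hsup : ∀ x, x ∉ Icc (-th) th → |x| * fej th x = 0 := by
    intro x hx
    have : th ≤ |x| := by
      by_contra h
      push Not at h
      apply hx
      have := abs_lt.mp h
      exact ⟨by linarith, by linarith⟩
    rw [fej_supp this, mul_zero]
  have h1 : ∫ x, |x| * fej th x = ∫ x in (-th)..th, |x| * fej th x := by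
    rw [intervalIntegral.integral_of_le (by linarith), ← integral_Icc_eq_integral_Ioc]
    exact (setIntegral_eq_integral_of_forall_compl_eq_zero hsup).symm
  rw [h1, ← intervalIntegral.integral_add_adjacent_intervals (b := 0) (hc.intervalIntegrable _ _) (hc.intervalIntegrable _ _)]
  have h2 : ∫ x in (-th)..0, |x| * fej th x = ∫ x in (0:ℝ)..th, |x| * fej th x := by
    have h3 := intervalIntegral.integral_comp_neg (a := (0:ℝ)) (b := th) (fun x => |x| * fej th x)
    rw [neg_zero] at h3
    rw [← h3]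
    refine intervalIntegral.integral_congr fun x _ => ?_
    simp only [fej, abs_neg]
  have h4 : ∫ x in (0:ℝ)..th, |x| * fej th x = th / 6 := by
    have h5 : ∀ x ∈ uIcc 0 th, |x| * fej th x = (x * th - x ^ 2) / th ^ 2 := by
      intro x hx
      rw [uIcc_of_le hth.le] at hx
      unfold fej
      rw [abs_of_nonneg hx.1, max_eq_right (by linarith [hx.2])]
      ring
    rw [intervalIntegral.integral_congr h5]
    have h6 : ∀ u ∈ uIcc (0:ℝ) th, HasDerivAt (fun u : ℝ => (u ^ 2 / 2 * th - u ^ 3 / 3) / th ^ 2) ((u * th - u ^ 2) / th ^ 2) u := by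
      intro u _
      have h7 := ((((hasDerivAt_id u).pow 2).div_const 2).mul_const th).sub (((hasDerivAt_id u).pow 3).div_const 3)
      have h8 := h7.div_const (th ^ 2)
      refine (h8.congr_deriv ?_).congr_of_eventuallyEq (Eventually.of_forall fun x => ?_)
      · simp only [id]
        push_cast
        ring
      · simp
    rw [intervalIntegral.integral_eq_sub_of_hasDerivAt h6 (Continuous.intervalIntegrable (by fun_prop) _ _)]
    field_simp
    ring
  rw [h2, h4]
  ring

/-- **the Fejér limit** -/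
theorem fejer_limit {th : ℝ} (hth : 0 < th) (hth1 : th < 1) {ε : ℝ} (hε : 0 < ε) :
    ∀ᶠ T : ℝ in atTop, ∫ x, fej th x * ff T x ≤ 1 / th + th / 3 + ε := by
  have h := up_all (fej_cont th) (fej_nonneg th) hth1 (fun x hx => fej_supp hx) hε
  rw [fej_moment hth] at h
  have h0 : fej th 0 = 1 / th := by
    unfold fej
    rw [abs_zero, sub_zero, max_eq_right hth.le]
    field_simp
  rwa [h0] at h

end Pool.Agent.Helper99.HZ
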