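import Mathlib

/-!
# HZ: the number of positive eigenvalues of a Hermitian matrix, and the trace

`inertia`: let `A` be positive semidefinite and `H` Hermitian, `r` linear functionals such that the form of `H` is nonpositive on their
common kernel. Then `(tr H A)² ≤ r tr (H A H A)` if `tr H A ≥ 0`. Write `A = Vᴴ V`, `G = V H Vᴴ`; `G` has at most `r` positive eigenvalues,
`tr G = tr H A`, `tr G² = tr H A H A`, and `tr G` is at most the sum of the positive eigenvalues (Cauchy-Schwarz).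
-/

set_option autoImplicit false

open Matrix
open scoped ComplexOrder

namespace Pool.Agent.Helper99.HZ

variable {ι : Type} [Fintype ι] [DecidableEq ι]

lemma exists_factor {A : Matrix ι ι ℂ} (hA : A.PosSemidef) : ∃ V : Matrix ι ι ℂ, A = Vᴴ * V := by
  open scoped MatrixOrder in
  obtain ⟨B, hB⟩ := CStarAlgebra.nonneg_iff_eq_star_mul_self.mp hA.nonneg
  exact ⟨B, hB⟩

/-- the form of a Hermitian matrix in the coordinates of the eigenvectors -/
lemma form_eq {G : Matrix ι ι ℂ} (hG : G.IsHermitian) (c : ι → ℂ) :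
    star ((hG.eigenvectorUnitary : Matrix ι ι ℂ).mulVec c) ⬝ᵥ G.mulVec ((hG.eigenvectorUnitary : Matrix ι ι ℂ).mulVec c) =
      ((∑ i, hG.eigenvalues i * ‖c i‖ ^ 2 : ℝ) : ℂ) := by
  have h1 := hG.conjStarAlgAut_star_eigenvectorUnitary
  rw [Unitary.conjStarAlgAut_star_apply] at h1
  have h2 : (hG.eigenvectorUnitary : Matrix ι ι ℂ)ᴴ * G * (hG.eigenvectorUnitary : Matrix ι ι ℂ) =
      diagonal (RCLike.ofReal ∘ hG.eigenvalues) := by
    rw [← h1]
    rfl
  rw [star_mulVec, ← dotProduct_mulVec, mulVec_mulVec, mulVec_mulVec, h2]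
  simp only [dotProduct, mulVec_diagonal, Pi.star_apply, Function.comp_apply]
  push_cast
  refine Finset.sum_congr rfl fun i _ => ?_
  have h3 : (star (c i)) * (c i) = ((‖c i‖ ^ 2 : ℝ) : ℂ) := by
    rw [Complex.star_def, mul_comm, Complex.mul_conj, Complex.normSq_eq_norm_sq]
  have h4 : (RCLike.ofReal (hG.eigenvalues i) : ℂ) = ((hG.eigenvalues i : ℝ) : ℂ) := rfl
  rw [h4]
  calc star (c i) * (((hG.eigenvalues i : ℝ) : ℂ) * c i) = ((hG.eigenvalues i : ℝ) : ℂ) * (star (c i) * c i) := by ring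
    _ = _ := by rw [h3]; push_cast; ring

/-- the trace of the square -/
lemma trace_sq {G : Matrix ι ι ℂ} (hG : G.IsHermitian) :
    (G * G).trace = ((∑ i, hG.eigenvalues i ^ 2 : ℝ) : ℂ) := by
  have h1 := hG.spectral_theorem
  rw [Unitary.conjStarAlgAut_apply] at h1
  set U := (hG.eigenvectorUnitary : Matrix ι ι ℂ) with hU
  set D : Matrix ι ι ℂ := diagonal (RCLike.ofReal ∘ hG.eigenvalues) with hD
  have hUU : (star U) * U = 1 := by
    rw [hU]
    exact Unitary.coe_star_mul_self _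
  have h2 : G * G = U * (D * D) * star U := by
    calc G * G = (U * D * star U) * (U * D * star U) := by rw [← h1]
      _ = U * D * (star U * U) * D * star U := by noncomm_ring
      _ = U * (D * D) * star U := by rw [hUU]; noncomm_ring
  rw [h2, Matrix.trace_mul_comm, ← Matrix.mul_assoc, hUU, Matrix.one_mul, hD, diagonal_mul_diagonal, trace_diagonal]
  push_cast
  refine Finset.sum_congr rfl fun i _ => ?_
  simp only [Function.comp_apply]
  change ((hG.eigenvalues i : ℝ) : ℂ) * ((hG.eigenvalues i : ℝ) : ℂ) = _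
  ring

theorem inertia {A H : Matrix ι ι ℂ} (hA : A.PosSemidef) (hH : H.IsHermitian) {r : ℕ}
    (R : (ι → ℂ) →ₗ[ℂ] (Fin r → ℂ)) (hR : ∀ x, R x = 0 → (star x ⬝ᵥ H.mulVec x).re ≤ 0)
    (h0 : 0 ≤ (H * A).trace.re) : (H * A).trace.re ^ 2 ≤ r * (H * A * H * A).trace.re := by
  obtain ⟨V, hV⟩ := exists_factor hA
  obtain ⟨G, hGd⟩ : ∃ G : Matrix ι ι ℂ, G = V * H * Vᴴ := ⟨_, rfl⟩
  have hG : G.IsHermitian := by
    rw [hGd, Matrix.IsHermitian, conjTranspose_mul, conjTranspose_mul, conjTranspose_conjTranspose, hH.eq, Matrix.mul_assoc]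
  have ht1 : (H * A).trace = G.trace := by
    rw [hGd, hV, ← Matrix.mul_assoc, Matrix.trace_mul_cycle]
  have ht2 : (H * A * H * A).trace = (G * G).trace := by
    have e : G * G = V * (H * A * H) * Vᴴ := by
      rw [hGd, hV]
      noncomm_ring
    rw [e, Matrix.trace_mul_cycle V, ← hV, Matrix.trace_mul_comm A]
  have e1 : (H * A).trace.re = ∑ i, hG.eigenvalues i := by
    rw [ht1, hG.trace_eq_sum_eigenvalues]
    have : ∑ i, (RCLike.ofReal (hG.eigenvalues i) : ℂ) = ((∑ i, hG.eigenvalues i : ℝ) : ℂ) := by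
      push_cast
      rfl
    rw [this, Complex.ofReal_re]
  have e2 : (H * A * H * A).trace.re = ∑ i, hG.eigenvalues i ^ 2 := by
    rw [ht2, trace_sq hG, Complex.ofReal_re]
  rw [e1] at h0 ⊢
  rw [e2]
  set S : Finset ι := Finset.univ.filter (fun i => 0 < hG.eigenvalues i) with hS
  -- the number of positive eigenvalues
  have hcard : S.card ≤ r := by
    by_contra hlt
    push Not at hlt
    let E : (S → ℂ) →ₗ[ℂ] (ι → ℂ) :=
      { toFun := fun c i => if h : i ∈ S then c ⟨i, h⟩ else 0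
        map_add' := by
          intro c d
          funext i
          by_cases h : i ∈ S
          · simp [h]
          · simp [h]
        map_smul' := by
          intro a c
          funext i
          by_cases h : i ∈ S
          · simp [h]
          · simp [h] }
    let Ψ : (S → ℂ) →ₗ[ℂ] (Fin r → ℂ) :=
      R ∘ₗ (Matrix.mulVecLin (Vᴴ * (hG.eigenvectorUnitary : Matrix ι ι ℂ))) ∘ₗ E
    have hker : LinearMap.ker Ψ ≠ ⊥ := by
      refine LinearMap.ker_ne_bot_of_finrank_lt ?_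
      simpa using hlt
    obtain ⟨c, hc, hc0⟩ := (Submodule.ne_bot_iff _).mp hker
    have hc1 : R ((Vᴴ * (hG.eigenvectorUnitary : Matrix ι ι ℂ)).mulVec (E c)) = 0 := hc
    have h2 := hR _ hc1
    have h3 : ∀ y : ι → ℂ, star (Vᴴ.mulVec y) ⬝ᵥ H.mulVec (Vᴴ.mulVec y) = star y ⬝ᵥ G.mulVec y := by
      intro y
      rw [star_mulVec, conjTranspose_conjTranspose, ← dotProduct_mulVec, mulVec_mulVec, mulVec_mulVec, ← hGd]
    rw [← mulVec_mulVec, h3, form_eq hG, Complex.ofReal_re] at h2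
    have hval : ∀ i (h : i ∈ S), E c i = c ⟨i, h⟩ := fun i h => by simp [E, h]
    have hval0 : ∀ i, i ∉ S → E c i = 0 := fun i h => by simp [E, h]
    have hnn : ∀ i ∈ Finset.univ, 0 ≤ hG.eigenvalues i * ‖E c i‖ ^ 2 := by
      intro i _
      by_cases h : i ∈ S
      · have : 0 < hG.eigenvalues i := (Finset.mem_filter.mp h).2
        positivity
      · rw [hval0 i h]
        simp
    have hz := (Finset.sum_eq_zero_iff_of_nonneg hnn).mp (le_antisymm h2 (Finset.sum_nonneg hnn))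
    apply hc0
    funext ⟨i, hi⟩
    have h4 := hz i (Finset.mem_univ i)
    have h5 : 0 < hG.eigenvalues i := (Finset.mem_filter.mp hi).2
    have h6 : ‖E c i‖ ^ 2 = 0 := by
      rcases mul_eq_zero.mp h4 with h | h
      · exact absurd h h5.ne'
      · exact h
    have h7 : E c i = 0 := by
      rw [← norm_eq_zero]
      exact pow_eq_zero_iff (two_ne_zero) |>.mp h6
    rw [hval i hi] at h7
    exact h7
  -- Cauchy-Schwarz
  have h1 : ∑ i, hG.eigenvalues i ≤ ∑ i ∈ S, hG.eigenvalues i := by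
    rw [← Finset.sum_filter_add_sum_filter_not Finset.univ (fun i => 0 < hG.eigenvalues i)]
    have : ∑ i ∈ Finset.univ.filter (fun i => ¬ 0 < hG.eigenvalues i), hG.eigenvalues i ≤ 0 :=
      Finset.sum_nonpos fun i hi => not_lt.mp (Finset.mem_filter.mp hi).2
    linarith
  have h2 : (∑ i ∈ S, hG.eigenvalues i) ^ 2 ≤ S.card * ∑ i ∈ S, hG.eigenvalues i ^ 2 := sq_sum_le_card_mul_sum_sq
  have h3 : ∑ i ∈ S, hG.eigenvalues i ^ 2 ≤ ∑ i, hG.eigenvalues i ^ 2 :=
    Finset.sum_le_sum_of_subset_of_nonneg (Finset.subset_univ _) fun i _ _ => sq_nonneg _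
  have h4 : (0:ℝ) ≤ ∑ i ∈ S, hG.eigenvalues i ^ 2 := Finset.sum_nonneg fun i _ => sq_nonneg _
  calc (∑ i, hG.eigenvalues i) ^ 2 ≤ (∑ i ∈ S, hG.eigenvalues i) ^ 2 := pow_le_pow_left₀ h0 h1 2
    _ ≤ S.card * ∑ i ∈ S, hG.eigenvalues i ^ 2 := h2
    _ ≤ r * ∑ i ∈ S, hG.eigenvalues i ^ 2 := mul_le_mul_of_nonneg_right (by exact_mod_cast hcard) h4
    _ ≤ r * ∑ i, hG.eigenvalues i ^ 2 := mul_le_mul_of_nonneg_left h3 (by positivity)

end Pool.Agent.Helper99.HZ
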