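import Pool.Agent.Helper57.FL.Zla
import Pool.Agent.Helper93.LP.MVs
import Pool.Agent.Helper92.RG.Edge

/-!
# HZ, block T1 (`up_mid`): the form factor in `(0,1)`, from above

`∫ w² ff T ≤ VW w + ε` for every smooth `w` supported in `[a,b]`, `0 < a ≤ b < 1`, `T` large.
Proof. By `ff_planch` the left side is `(1/T) ∫_ℝ ‖GG T w t‖² dt`. Let `η = (1-b)/2`, `R = T^η`. For `R ≤ t ≤ T - R` the
explicit formula gives `GG = -PP + o(1)` (zeros outside `[0,T]` are at distance `≥ R`, and `LT w` decays faster than any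
power), and `(1/T) ∫_0^T ‖PP‖² ≤ VW w + o(1)` (`short_law`). Outside `[R, T-R]` the crude bound
`‖GG‖ ≤ C T^(b/2) ∑ mx (1+|t-γ|)^(-n)` gives `∫ ‖GG‖² ≤ C T^b log² T · T^η = o(T)`.
-/

set_option autoImplicit false

open Complex MeasureTheory Set Filter Topology
open Pool.Agent.Helper57.LH Pool.Agent.Helper57.PC Pool.Agent.Helper57.Zeta
open Pool.Agent.Helper69.GGM Pool.Agent.Helper93.LP Pool.Agent.Helper57.FL
open Pool.Agent.Helper57.UV (KS KS_nonneg KS_integrable KS_le_log)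

namespace Pool.Agent.Helper99.HZ

/-- archimedean part -/
private lemma arch_bound99 {w : ℝ → ℂ} {a : ℝ} (ha : 0 < a) {C : ℝ} (hC : 0 < C)
    (hneg : ∀ z : ℂ, z.re ≤ 0 → ‖LT w z‖ ≤ C * Real.exp (a * z.re)) {L : ℝ} (hL : 1 ≤ L) (t : ℝ) :
    ‖∑' n : ℕ, LT w ((L : ℂ) * (-(2 * ((n : ℂ) + 1)) - ((1 / 2 : ℂ) + (t : ℂ) * I)))‖ ≤
      C * Real.exp (-(a * L)) * ∑' n : ℕ, Real.exp (-a) ^ n := by
  have hq0 : 0 ≤ Real.exp (-a) := (Real.exp_pos _).le
  have hq1 : Real.exp (-a) < 1 := by rw [Real.exp_lt_one_iff]; linarith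
  have hs : Summable (fun n : ℕ => Real.exp (-a) ^ n) := summable_geometric_of_lt_one hq0 hq1
  have hs2 : HasSum (fun n : ℕ => C * Real.exp (-(a * L)) * Real.exp (-a) ^ n)
      (C * Real.exp (-(a * L)) * ∑' n : ℕ, Real.exp (-a) ^ n) := hs.hasSum.mul_left _
  apply tsum_of_norm_bounded hs2
  intro n
  have hre : ((L : ℂ) * (-(2 * ((n : ℂ) + 1)) - ((1 / 2 : ℂ) + (t : ℂ) * I))).re =
      L * (-(2 * ((n : ℝ) + 1)) - 1 / 2) := by
    simp
  have hn0 : (0:ℝ) ≤ (n : ℝ) := Nat.cast_nonneg n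
  have hneg2 : ((L : ℂ) * (-(2 * ((n : ℂ) + 1)) - ((1 / 2 : ℂ) + (t : ℂ) * I))).re ≤ 0 := by
    rw [hre]
    nlinarith
  refine (hneg _ hneg2).trans ?_
  rw [hre, ← Real.exp_nat_mul, mul_assoc, ← Real.exp_add]
  have : a * (L * (-(2 * ((n : ℝ) + 1)) - 1 / 2)) ≤ -(a * L) + (n : ℝ) * -a := by
    nlinarith [mul_nonneg ha.le hn0, mul_nonneg ha.le (mul_nonneg hn0 (by linarith : (0:ℝ) ≤ L - 1)), mul_pos ha (by linarith : 0 < L)]
  have := Real.exp_le_exp.mpr this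
  nlinarith [this]

/-- the explicit formula for the scaled weight -/
private lemma scaled99 {w : ℝ → ℂ} {a b : ℝ} (h : WC w a b) {T : ℝ} (hL : 0 < Real.log T) (t : ℝ) :
    HasSum (fun ρ : ZS => (mx (ρ : ℂ) : ℂ) * LT w (zz T t ρ))
      (LT w (((Real.log T : ℝ) : ℂ) * (1 - ((1 / 2 : ℂ) + (t : ℂ) * I))) -
        (∑' n : ℕ, LT w (((Real.log T : ℝ) : ℂ) * (-(2 * ((n : ℂ) + 1)) - ((1 / 2 : ℂ) + (t : ℂ) * I)))) -
        PP T w t) := by
  set L := Real.log T with hLdef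
  set s₀ : ℂ := (1 / 2 : ℂ) + (t : ℂ) * I with hs₀
  have hLC : (L : ℂ) ≠ 0 := by exact_mod_cast hL.ne'
  have hex := explicit_w (WC_scale h hL s₀)
  have hlt : ∀ z : ℂ, LT (fun x : ℝ => w (x / L) * Complex.exp (-(s₀ * (x : ℂ)))) z = (L : ℂ) * LT w ((L : ℂ) * (z - s₀)) :=
    fun z => LT_scale w hL s₀ z
  have hex2 := hex.mul_left ((L : ℂ)⁻¹)
  have hz : ∀ ρ : ℂ, (L : ℂ) * (ρ - s₀) = zz T t ρ := by
    intro ρ
    apply Complex.ext
    · simp [zz, hs₀, hLdef]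
    · simp [zz, hs₀, hLdef]
  have hfun : (fun ρ : ZS => (L : ℂ)⁻¹ * ((mx (ρ : ℂ) : ℂ) *
      LT (fun x : ℝ => w (x / L) * Complex.exp (-(s₀ * (x : ℂ)))) (ρ : ℂ))) =
      fun ρ : ZS => (mx (ρ : ℂ) : ℂ) * LT w (zz T t ρ) := by
    funext ρ
    rw [hlt, hz]
    field_simp
  rw [hfun, mul_sub, mul_sub, hlt 1] at hex2
  have e1 : (L : ℂ)⁻¹ * ((L : ℂ) * LT w ((L : ℂ) * (1 - s₀))) = LT w ((L : ℂ) * (1 - s₀)) := by
    field_simp
  have e2 : (L : ℂ)⁻¹ * (∑' n : ℕ, LT (fun x : ℝ => w (x / L) * Complex.exp (-(s₀ * (x : ℂ)))) (-(2 * ((n : ℂ) + 1)))) =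
      ∑' n : ℕ, LT w ((L : ℂ) * (-(2 * ((n : ℂ) + 1)) - s₀)) := by
    rw [← tsum_mul_left]
    congr 1
    funext n
    rw [hlt]
    field_simp
  have e3 : (L : ℂ)⁻¹ * (∑' n : ℕ, ((ArithmeticFunction.vonMangoldt n : ℝ) : ℂ) *
      (w (Real.log n / L) * Complex.exp (-(s₀ * ((Real.log n : ℝ) : ℂ))))) = PP T w t := by
    unfold PP
    congr 1
    congr 1
    funext n
    rcases Nat.eq_zero_or_pos n with hn | hn
    · subst hn
      simp
    · have hn' : (n : ℂ) ≠ 0 := by exact_mod_cast hn.ne'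
      rw [Complex.cpow_def_of_ne_zero hn', ← Complex.natCast_log, ← hs₀]
      have : ((Real.log (n:ℝ) : ℝ) : ℂ) * -s₀ = -(s₀ * ((Real.log n : ℝ) : ℂ)) := by ring
      rw [this]
      ring
  rw [e1, e2, e3] at hex2
  exact hex2

/-- `exp (b |x|)` for the depth of a zero -/
private lemma exp_depth99 {b T : ℝ} (hb0 : 0 < b) (hT : 0 < T) (hL : 0 < Real.log T) {x : ℝ} (h0 : 0 ≤ x) (h1 : x ≤ 1) :
    Real.exp (b * |Real.log T * (x - 1 / 2)|) ≤ T ^ (b / 2) := by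
  rw [Real.rpow_def_of_pos hT]
  apply Real.exp_le_exp.mpr
  rw [abs_mul, abs_of_pos hL]
  have : |x - 1 / 2| ≤ 1 / 2 := by
    rw [abs_le]
    constructor <;> linarith
  calc b * (Real.log T * |x - 1 / 2|) ≤ b * (Real.log T * (1 / 2)) := by gcongr
    _ = Real.log T * (b / 2) := by ring

/-- the zeros outside `[0,T]` -/
private lemma outer99 {w : ℝ → ℂ} {b : ℝ} {n : ℕ} (hb : 0 < b) (hb1 : b < 1)
    {C : ℝ} (hC : 0 < C)
    (hbd : ∀ z : ℂ, ‖LT w z‖ ≤ C * Real.exp (b * |z.re|) / (1 + |z.im|) ^ (n + 2))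
    {R T t : ℝ} (hR : 1 ≤ R) (hT : 1 ≤ T) (hL : 1 ≤ Real.log T)
    (h1 : R ≤ t) (h2 : t ≤ T - R) (ρ : ZS) (hρ : ρ ∉ ZT T) :
    ‖(mx (ρ : ℂ) : ℂ) * LT w (zz T t ρ)‖ ≤ C * T * (1 + T) ^ 2 / R ^ n * (mx ρ / (1 + |(ρ:ℂ).im|) ^ 2) := by
  have hT0 : 0 < T := by linarith
  have hL0 : 0 < Real.log T := by linarith
  have hr := zs_re ρ
  have hm0 := mx_nonneg (ρ:ℂ)
  set g := (ρ:ℂ).im with hg
  have hgn : ¬ (0 ≤ g ∧ g ≤ T) := fun h => hρ (mem_ZT.mpr h)
  have hd : R ≤ |g - t| := by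
    by_cases h : g < 0
    · rw [abs_sub_comm, le_abs]
      left
      linarith
    · push Not at h
      have h3 : T < g := by
        by_contra h4
        exact hgn ⟨h, by linarith⟩
      rw [le_abs]
      left
      linarith
  have hre : (zz T t ρ).re = Real.log T * ((ρ:ℂ).re - 1 / 2) := by simp [zz]
  have him : (zz T t ρ).im = Real.log T * (g - t) := by simp [zz, hg]
  have hb1' := hbd (zz T t ρ)
  rw [hre, him] at hb1'
  have hexp : Real.exp (b * |Real.log T * ((ρ:ℂ).re - 1 / 2)|) ≤ T := by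
    refine (exp_depth99 hb hT0 hL0 hr.1.le hr.2.le).trans ?_
    calc T ^ (b / 2) ≤ T ^ (1:ℝ) := Real.rpow_le_rpow_of_exponent_le hT (by linarith)
      _ = T := Real.rpow_one T
  have hg0 : 0 ≤ |g| := abs_nonneg g
  have hgt0 : 0 ≤ |g - t| := abs_nonneg _
  have hy : 1 + |g - t| ≤ 1 + |Real.log T * (g - t)| := by
    rw [abs_mul, abs_of_pos hL0]
    nlinarith
  have hg1 : 1 + |g| ≤ (1 + |g - t|) * (1 + T) := by
    have h3 : |g| ≤ |g - t| + |t| := by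
      calc |g| = |(g - t) + t| := by ring_nf
        _ ≤ _ := abs_add_le _ _
    have h4 : |t| ≤ T := by
      rw [abs_le]
      constructor <;> linarith
    nlinarith
  have hden : R ^ n * ((1 + |g|) ^ 2 / (1 + T) ^ 2) ≤ (1 + |Real.log T * (g - t)|) ^ (n + 2) := by
    have h5 : (1 + |g|) ^ 2 / (1 + T) ^ 2 ≤ (1 + |g - t|) ^ 2 := by
      rw [div_le_iff₀ (by positivity), ← mul_pow]
      gcongr
    calc R ^ n * ((1 + |g|) ^ 2 / (1 + T) ^ 2) ≤ (1 + |g - t|) ^ n * (1 + |g - t|) ^ 2 := by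
          gcongr
          linarith
      _ = (1 + |g - t|) ^ (n + 2) := by rw [pow_add]
      _ ≤ _ := by gcongr
  have hden0 : 0 < R ^ n * ((1 + |g|) ^ 2 / (1 + T) ^ 2) := by positivity
  have hfin : C * Real.exp (b * |Real.log T * ((ρ:ℂ).re - 1 / 2)|) / (1 + |Real.log T * (g - t)|) ^ (n + 2) ≤
      C * T / (R ^ n * ((1 + |g|) ^ 2 / (1 + T) ^ 2)) := by
    gcongr
  have heq : C * T / (R ^ n * ((1 + |g|) ^ 2 / (1 + T) ^ 2)) =
      C * T * (1 + T) ^ 2 / R ^ n * (1 / (1 + |g|) ^ 2) := by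
    field_simp
  rw [norm_mul, Complex.norm_real, Real.norm_of_nonneg hm0]
  calc mx (ρ:ℂ) * ‖LT w (zz T t ρ)‖ ≤ mx (ρ:ℂ) * (C * T * (1 + T) ^ 2 / R ^ n * (1 / (1 + |g|) ^ 2)) := by
        apply mul_le_mul_of_nonneg_left _ hm0
        linarith
    _ = _ := by ring

private lemma GG_ZT99 (T : ℝ) (w : ℝ → ℂ) (t : ℝ) :
    GG T w t = ∑ ρ ∈ ZT T, (mx (ρ : ℂ) : ℂ) * LT w (zz T t ρ) := by
  unfold GG ZT
  symm
  refine Finset.sum_subtype_of_mem (fun ρ : ℂ => (mx (ρ : ℂ) : ℂ) * LT w (zz T t ρ)) ?_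
  intro ρ hρ
  rw [mem_Zf] at hρ
  exact isNontrivialZero_iff.mp hρ.1

/-- powers of `R = T^η` -/
private lemma R_pow99 {η T : ℝ} (hη : 0 < η) (hT : 1 ≤ T) : T ^ 4 ≤ (T ^ η) ^ ⌈4 / η⌉₊ := by
  have hT0 : 0 < T := by linarith
  rw [← Real.rpow_natCast (T ^ η), ← Real.rpow_mul hT0.le]
  have h1 : (4:ℝ) ≤ η * (⌈4 / η⌉₊ : ℝ) := by
    have := Nat.le_ceil (4 / η)
    rw [div_le_iff₀ hη] at this
    linarith
  calc T ^ 4 = T ^ (4:ℝ) := by norm_cast
    _ ≤ _ := Real.rpow_le_rpow_of_exponent_le hT h1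

/-- the explicit formula on `[T^η, T - T^η]` -/
theorem ef_wide {w : ℝ → ℂ} {a b : ℝ} (h : WC w a b) (hb1 : b < 1) {η : ℝ} (hη : 0 < η)
    {ε : ℝ} (hε : 0 < ε) :
    ∀ᶠ T : ℝ in atTop, ∀ t : ℝ, T ^ η ≤ t → t ≤ T - T ^ η → ‖PP T w t + GG T w t‖ ≤ ε := by
  classical
  have ha : 0 < a := h.2.1
  have hb : 0 < b := ha.trans_le h.2.2.1
  set n : ℕ := ⌈4 / η⌉₊ with hn
  obtain ⟨C, hC, hbd⟩ := LT_bound h (n + 2)
  obtain ⟨C2, hC2, hneg⟩ := LT_neg h
  set K : ℝ := ∑' ρ : ZS, mx ρ / (1 + |(ρ:ℂ).im|) ^ 2 with hK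
  have hK0 : 0 ≤ K := tsum_nonneg fun ρ => by
    have := mx_nonneg (ρ:ℂ)
    positivity
  set K2 : ℝ := ∑' n : ℕ, Real.exp (-a) ^ n with hK2
  have hl1 : Tendsto (fun T : ℝ => C * T⁻¹ + C2 * Real.exp (-(a * Real.log T)) * K2 +
      4 * C * T⁻¹ * K) atTop (𝓝 0) := by
    have t1 : Tendsto (fun T : ℝ => C * T⁻¹) atTop (𝓝 0) := by
      simpa using tendsto_inv_atTop_zero.const_mul C
    have t2 : Tendsto (fun T : ℝ => C2 * Real.exp (-(a * Real.log T)) * K2) atTop (𝓝 0) := by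
      have : Tendsto (fun T : ℝ => Real.exp (-(a * Real.log T))) atTop (𝓝 0) := by
        apply Real.tendsto_exp_neg_atTop_nhds_zero.comp
        exact Real.tendsto_log_atTop.const_mul_atTop ha
      simpa using (this.const_mul C2).mul_const K2
    have t3 : Tendsto (fun T : ℝ => 4 * C * T⁻¹ * K) atTop (𝓝 0) := by
      have : Tendsto (fun T : ℝ => 4 * C * T⁻¹) atTop (𝓝 0) := by
        simpa using tendsto_inv_atTop_zero.const_mul (4 * C)
      simpa using this.mul_const K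
    simpa using (t1.add t2).add t3
  filter_upwards [hl1.eventually (gt_mem_nhds hε), eventually_ge_atTop 1,
    Real.tendsto_log_atTop.eventually_ge_atTop 1] with T hTε hT1 hL1 t ht1 ht2
  have hT0 : 0 < T := by linarith
  have hL0 : 0 < Real.log T := by linarith
  set R := T ^ η with hR
  have hR1 : 1 ≤ R := Real.one_le_rpow hT1 hη.le
  have hRn : T ^ 4 ≤ R ^ n := R_pow99 hη hT1
  have hRn0 : 0 < R ^ n := by positivity
  have hs := scaled99 h hL0 t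
  have hfin : HasSum (fun ρ : ZS => if ρ ∈ ZT T then (mx (ρ : ℂ) : ℂ) * LT w (zz T t ρ) else 0)
      (GG T w t) := by
    rw [GG_ZT99]
    have e2 : ∑ ρ ∈ ZT T, (mx (ρ : ℂ) : ℂ) * LT w (zz T t ρ) =
        ∑ ρ ∈ ZT T, (if ρ ∈ ZT T then (mx (ρ : ℂ) : ℂ) * LT w (zz T t ρ) else 0) := by
      apply Finset.sum_congr rfl
      intro ρ hρ
      simp [hρ]
    rw [e2]
    apply hasSum_sum_of_ne_finset_zero
    intro ρ hρ
    simp [hρ]
  have hdiff := hs.sub hfin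
  have hbdsum : HasSum (fun ρ : ZS => C * T * (1 + T) ^ 2 / R ^ n * (mx ρ / (1 + |(ρ:ℂ).im|) ^ 2))
      (C * T * (1 + T) ^ 2 / R ^ n * K) := hd2_summable.hasSum.mul_left _
  have hout := hdiff.norm_le_of_bounded hbdsum (by
    intro ρ
    by_cases hρ : ρ ∈ ZT T
    · simp only [hρ, if_true, sub_self, norm_zero]
      have := mx_nonneg (ρ:ℂ)
      positivity
    · simp only [hρ, if_false, sub_zero]
      exact outer99 hb hb1 hC hbd hR1 hT1 hL1 ht1 ht2 ρ hρ)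
  have hout2 : C * T * (1 + T) ^ 2 / R ^ n * K ≤ 4 * C * T⁻¹ * K := by
    refine mul_le_mul_of_nonneg_right ?_ hK0
    rw [div_le_iff₀ hRn0]
    have h1 : (1 + T) ^ 2 ≤ 4 * T ^ 2 := by nlinarith
    calc C * T * (1 + T) ^ 2 ≤ C * T * (4 * T ^ 2) := by gcongr
      _ = 4 * C * T⁻¹ * T ^ 4 := by field_simp
      _ ≤ 4 * C * T⁻¹ * R ^ n := by gcongr
  have harch := arch_bound99 ha hC2 hneg hL1 t (w := w)
  have hpole : ‖LT w (((Real.log T : ℝ) : ℂ) * (1 - ((1 / 2 : ℂ) + (t : ℂ) * I)))‖ ≤ C * T⁻¹ := by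
    refine (hbd _).trans ?_
    have hre : (((Real.log T : ℝ) : ℂ) * (1 - ((1 / 2 : ℂ) + (t : ℂ) * I))).re = Real.log T / 2 := by
      simp
      ring
    have him : (((Real.log T : ℝ) : ℂ) * (1 - ((1 / 2 : ℂ) + (t : ℂ) * I))).im = -(Real.log T * t) := by
      simp
    rw [hre, him, abs_neg, abs_of_pos (by linarith : 0 < Real.log T / 2)]
    have ht0 : 0 < t := by linarith
    rw [abs_of_pos (mul_pos hL0 ht0)]
    have hexp : Real.exp (b * (Real.log T / 2)) ≤ T := by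
      have e : T = Real.exp (Real.log T) := (Real.exp_log hT0).symm
      conv_rhs => rw [e]
      apply Real.exp_le_exp.mpr
      nlinarith
    have hden : T ^ 4 ≤ (1 + Real.log T * t) ^ (n + 2) := by
      have h1 : R ≤ 1 + Real.log T * t := by nlinarith
      calc T ^ 4 ≤ R ^ n := hRn
        _ ≤ R ^ (n + 2) := pow_le_pow_right₀ hR1 (by omega)
        _ ≤ _ := by gcongr
    calc C * Real.exp (b * (Real.log T / 2)) / (1 + Real.log T * t) ^ (n + 2) ≤ C * T / T ^ 4 := by gcongr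
      _ = C * (1 / T ^ 3) := by
          field_simp
      _ ≤ C * T⁻¹ := by
          have : 1 / T ^ 3 ≤ T⁻¹ := by
            rw [← one_div]
            apply one_div_le_one_div_of_le hT0
            nlinarith [mul_pos hT0 hT0, mul_nonneg (mul_pos hT0 hT0).le (by linarith : (0:ℝ) ≤ T - 1), mul_nonneg hT0.le (by linarith : (0:ℝ) ≤ T - 1)]
          exact mul_le_mul_of_nonneg_left this hC.le
  set A1 := LT w (((Real.log T : ℝ) : ℂ) * (1 - ((1 / 2 : ℂ) + (t : ℂ) * I))) with hA1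
  set A2 := ∑' n : ℕ, LT w (((Real.log T : ℝ) : ℂ) * (-(2 * ((n : ℂ) + 1)) - ((1 / 2 : ℂ) + (t : ℂ) * I))) with hA2
  have e : PP T w t + GG T w t = A1 - A2 - (A1 - A2 - PP T w t - GG T w t) := by ring
  rw [e]
  calc ‖A1 - A2 - (A1 - A2 - PP T w t - GG T w t)‖ ≤ ‖A1 - A2‖ + ‖A1 - A2 - PP T w t - GG T w t‖ := norm_sub_le _ _
    _ ≤ ‖A1‖ + ‖A2‖ + ‖A1 - A2 - PP T w t - GG T w t‖ := by gcongr; exact norm_sub_le _ _
    _ ≤ C * T⁻¹ + C2 * Real.exp (-(a * Real.log T)) * K2 + 4 * C * T⁻¹ * K := by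
        gcongr
        exact hout.trans hout2
    _ ≤ ε := hTε.le

/-! ### the edges -/

private theorem q_le_Kd99 (n : ℕ) (w : ℝ) : ((1 + |w|) ^ (n + 2))⁻¹ ≤ Kd 1 w := by
  unfold Kd
  rw [one_mul]
  have h0 := abs_nonneg w
  have h1 : w ^ 2 = |w| ^ 2 := (sq_abs w).symm
  rw [h1]
  have : 1 + |w| ^ 2 ≤ (1 + |w|) ^ (n + 2) := by
    calc 1 + |w| ^ 2 ≤ (1 + |w|) ^ 2 := by nlinarith
      _ ≤ (1 + |w|) ^ (n + 2) := pow_le_pow_right₀ (by linarith) (by omega)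
  gcongr

private theorem q_le_far99 (n : ℕ) {R w : ℝ} (hR : 0 < R) (hw : R ≤ |w|) :
    ((1 + |w|) ^ (n + 2))⁻¹ ≤ 1 / R ^ n * Kd 1 w := by
  unfold Kd
  rw [one_mul]
  have h0 := abs_nonneg w
  have h1 : w ^ 2 = |w| ^ 2 := (sq_abs w).symm
  rw [h1]
  have h3 : R ^ n * (1 + |w| ^ 2) ≤ (1 + |w|) ^ (n + 2) := by
    rw [pow_add]
    have h4 : 1 + |w| ^ 2 ≤ (1 + |w|) ^ 2 := by nlinarith
    gcongr
    linarith
  calc ((1 + |w|) ^ (n + 2))⁻¹ ≤ (R ^ n * (1 + |w| ^ 2))⁻¹ := by gcongr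
    _ = _ := by rw [mul_inv, one_div]

private theorem KS_int99 (F : Finset ZS) : ∫ t, KS F t = Real.pi * ∑ ρ ∈ F, mx ρ := by
  unfold KS
  rw [integral_finsetSum F fun ρ _ => ((Kd_integrable one_pos).comp_sub_right _).const_mul _, Finset.mul_sum]
  refine Finset.sum_congr rfl fun ρ _ => ?_
  rw [integral_const_mul, integral_sub_right_eq_self (fun w => Kd 1 w) (ρ:ℂ).im, Kd_integral one_pos]
  ring

private theorem edge_gen99 {T D R : ℝ} {n : ℕ} (hT : 3 ≤ T) (hR : 1 ≤ R) (hD : 0 ≤ D) (K : ℝ → ℝ) (hK : Continuous K)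
    (hb : ∀ t, |K t| ≤ D * ∑ ρ ∈ ZT T, mx ρ * ((1 + |t - (ρ:ℂ).im|) ^ (n + 2))⁻¹) :
    Integrable (fun t => K t ^ 2) ∧
    ∫ t in (Icc R (T - R))ᶜ, K t ^ 2 ≤
      D ^ 2 * (4 * CLA * Real.log T) * (4 * CLA * Real.log T * (4 * R) + 1 / R ^ n * (Real.pi * NT T)) := by
  have hCLA := CLA_pos
  have hL := one_le_log hT
  have hT0 : 0 < T := by linarith
  have hR0 : 0 < R := by linarith
  have hZ : ∀ ρ ∈ ZT T, 0 ≤ (ρ:ℂ).im ∧ (ρ:ℂ).im ≤ T := fun ρ hρ => mem_ZT.mp hρ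
  obtain ⟨c, hc⟩ : ∃ c, c = 4 * CLA * Real.log T := ⟨_, rfl⟩
  have hc0 : 0 < c := by rw [hc]; positivity
  rw [← hc]
  -- comparison with KS
  have h1 : ∀ t, ∑ ρ ∈ ZT T, mx ρ * ((1 + |t - (ρ:ℂ).im|) ^ (n + 2))⁻¹ ≤ KS (ZT T) t := by
    intro t
    unfold KS
    refine Finset.sum_le_sum fun ρ _ => ?_
    exact mul_le_mul_of_nonneg_left (q_le_Kd99 n _) (mx_nonneg _)
  have h2 : ∀ t, |K t| ≤ D * KS (ZT T) t := fun t => (hb t).trans (mul_le_mul_of_nonneg_left (h1 t) hD)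
  have h3 : ∀ t, KS (ZT T) t ≤ c := fun t => by rw [hc]; exact KS_le_log hT hZ t
  have h4 : ∀ t, |K t| ≤ D * c := fun t => (h2 t).trans (mul_le_mul_of_nonneg_left (h3 t) hD)
  have iKS : Integrable (fun t => D * KS (ZT T) t) := (KS_integrable _).const_mul D
  have iK2 : Integrable (fun t => K t ^ 2) := by
    refine (iKS.const_mul (D * c)).mono' (hK.pow 2).aestronglyMeasurable (Eventually.of_forall fun t => ?_)
    rw [Real.norm_eq_abs, abs_pow, pow_two]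
    exact mul_le_mul (h4 t) (h2 t) (abs_nonneg _) (by positivity)
  -- the majorant
  set S : Set ℝ := Icc (-R) R ∪ Icc (T - R) (T + R) with hS
  have hSm : MeasurableSet S := measurableSet_Icc.union measurableSet_Icc
  have hSv : volume S < ⊤ := by
    refine (measure_union_le _ _).trans_lt ?_
    rw [Real.volume_Icc, Real.volume_Icc]
    exact ENNReal.add_lt_top.mpr ⟨ENNReal.ofReal_lt_top, ENNReal.ofReal_lt_top⟩
  set G1 : ℝ → ℝ := S.indicator (fun _ => c) with hG1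
  set G2 : ℝ → ℝ := fun t => 1 / R ^ n * KS (ZT T) t with hG2
  have iG1 : Integrable G1 := by
    rw [hG1, integrable_indicator_iff hSm]
    exact integrableOn_const hSv.ne
  have iG2 : Integrable G2 := (KS_integrable _).const_mul _
  have hG10 : ∀ t, 0 ≤ G1 t := fun t => by
    rw [hG1]
    exact indicator_nonneg (fun _ _ => hc0.le) t
  have hG20 : ∀ t, 0 ≤ G2 t := fun t => by
    rw [hG2]
    have := KS_nonneg (ZT T) t
    positivity
  have hpt : ∀ t ∈ (Icc R (T - R))ᶜ,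
      ∑ ρ ∈ ZT T, mx ρ * ((1 + |t - (ρ:ℂ).im|) ^ (n + 2))⁻¹ ≤ G1 t + G2 t := by
    intro t ht
    by_cases htS : t ∈ S
    · have e1 : G1 t = c := by rw [hG1]; exact indicator_of_mem htS _
      rw [e1]
      linarith only [h1 t, h3 t, hG20 t]
    · have h5 : ∑ ρ ∈ ZT T, mx ρ * ((1 + |t - (ρ:ℂ).im|) ^ (n + 2))⁻¹ ≤ G2 t := by
        rw [hG2]
        simp only
        unfold KS
        rw [Finset.mul_sum]
        refine Finset.sum_le_sum fun ρ hρ => ?_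
        obtain ⟨hg0, hgT⟩ := hZ ρ hρ
        have hfar : R ≤ |t - (ρ:ℂ).im| := by
          rw [hS, mem_union, not_or] at htS
          obtain ⟨h4, h5⟩ := htS
          simp only [mem_Icc, not_and_or, not_le] at h4 h5
          rw [mem_compl_iff, mem_Icc, not_and_or, not_le, not_le] at ht
          rw [le_abs]
          rcases ht with h | h
          · right
            rcases h4 with h4 | h4
            · linarith only [hg0, h4]
            · linarith only [h, h4]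
          · left
            rcases h5 with h5 | h5
            · linarith only [h, h5]
            · linarith only [hgT, h5]
        have h7 := q_le_far99 n hR0 hfar
        have h8 := mx_nonneg (ρ:ℂ)
        calc mx ρ * ((1 + |t - (ρ:ℂ).im|) ^ (n + 2))⁻¹ ≤ mx ρ * (1 / R ^ n * Kd 1 (t - (ρ:ℂ).im)) :=
              mul_le_mul_of_nonneg_left h7 h8
          _ = _ := by ring
      linarith only [hG10 t, h5]
  have hI : ∫ t, (G1 t + G2 t) ≤ c * (4 * R) + 1 / R ^ n * (Real.pi * NT T) := by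
    rw [integral_add iG1 iG2]
    have h5 : ∫ t, G1 t ≤ c * (4 * R) := by
      rw [hG1, integral_indicator hSm, setIntegral_const, smul_eq_mul, mul_comm]
      have h5 : volume.real S ≤ 4 * R := by
        rw [hS]
        refine (measureReal_union_le _ _).trans ?_
        rw [Real.volume_real_Icc_of_le (by linarith only [hR0]), Real.volume_real_Icc_of_le (by linarith only [hR0])]
        linarith only []
      gcongr
    have h6 : ∫ t, G2 t = 1 / R ^ n * (Real.pi * NT T) := by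
      rw [hG2, integral_const_mul, KS_int99, sum_ZT_mx]
    linarith
  refine ⟨iK2, ?_⟩
  have hq : 0 ≤ D ^ 2 * c := by positivity
  have hIs : ∫ t in (Icc R (T - R))ᶜ, D ^ 2 * c * (G1 t + G2 t) ≤
      D ^ 2 * c * (c * (4 * R) + 1 / R ^ n * (Real.pi * NT T)) := by
    rw [integral_const_mul]
    refine mul_le_mul_of_nonneg_left ?_ hq
    exact (setIntegral_le_integral (iG1.add iG2) (Eventually.of_forall fun t => add_nonneg (hG10 t) (hG20 t))).trans hI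
  refine le_trans ?_ hIs
  refine setIntegral_mono_on iK2.integrableOn ((iG1.add iG2).const_mul _).integrableOn measurableSet_Icc.compl fun t ht => ?_
  have e : K t ^ 2 = |K t| * |K t| := by rw [← abs_mul, ← pow_two, abs_of_nonneg (sq_nonneg _)]
  rw [e]
  calc |K t| * |K t| ≤ (D * c) * (D * (G1 t + G2 t)) := by
        refine mul_le_mul (h4 t) ((hb t).trans (mul_le_mul_of_nonneg_left (hpt t ht) hD)) (abs_nonneg _) (by positivity)
    _ = _ := by ring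

/-- the edges: `∫ ‖GG‖²` outside `[T^η, T - T^η]` is `o(T)` if `b + η < 1` -/
theorem edge_wide {w : ℝ → ℂ} {a b : ℝ} (h : WC w a b) {η : ℝ} (hη : 0 < η) (hbη : b + η < 1)
    {ε : ℝ} (hε : 0 < ε) :
    ∀ᶠ T : ℝ in atTop, Integrable (fun t : ℝ => ‖GG T w t‖ ^ 2) ∧
      ∫ t in (Icc (T ^ η) (T - T ^ η))ᶜ, ‖GG T w t‖ ^ 2 ≤ ε * T := by
  have ha : 0 < a := h.2.1
  have hb : 0 < b := ha.trans_le h.2.2.1
  obtain ⟨n, hn⟩ : ∃ n : ℕ, n = ⌈4 / η⌉₊ := ⟨_, rfl⟩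
  obtain ⟨C, hC, hbd⟩ := LT_bound h (n + 2)
  have hCLA := CLA_pos
  filter_upwards [eventually_ge_atTop 3, NT_le_ev,
    log_pow_le (C ^ 2 * (4 * CLA) * (16 * CLA + 4) / ε) 2 (s := b / 2 + b / 2 + η) (by linarith)] with T hT hN hl
  have hT0 : 0 < T := by linarith
  have hT1 : 1 ≤ T := by linarith
  have hL := one_le_log hT
  have hL0 : 0 < Real.log T := by linarith
  obtain ⟨R, hRd⟩ : ∃ R, R = T ^ η := ⟨_, rfl⟩
  have hR1 : 1 ≤ R := by rw [hRd]; exact Real.one_le_rpow hT1 hη.le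
  have hRn : T ^ 4 ≤ R ^ n := by rw [hRd, hn]; exact R_pow99 hη hT1
  have hR0 : 0 < R := by linarith
  have hRn0 : 0 < R ^ n := by positivity
  obtain ⟨D, hDd⟩ : ∃ D, D = C * T ^ (b / 2) := ⟨_, rfl⟩
  have hTp : 0 < T ^ (b / 2) := Real.rpow_pos_of_pos hT0 _
  have hD : 0 < D := by rw [hDd]; positivity
  have hb1 : ∀ t, |‖GG T w t‖| ≤ D * ∑ ρ ∈ ZT T, mx ρ * ((1 + |t - (ρ:ℂ).im|) ^ (n + 2))⁻¹ := by
    intro t
    rw [abs_of_nonneg (norm_nonneg _), GG_ZT99]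
    refine (norm_sum_le _ _).trans ?_
    rw [Finset.mul_sum]
    refine Finset.sum_le_sum fun ρ _ => ?_
    have hr := zs_re ρ
    have hm0 := mx_nonneg (ρ:ℂ)
    rw [norm_mul, Complex.norm_real, Real.norm_of_nonneg hm0]
    have hre : (zz T t ρ).re = Real.log T * ((ρ:ℂ).re - 1 / 2) := by simp [zz]
    have him : (zz T t ρ).im = Real.log T * ((ρ:ℂ).im - t) := by simp [zz]
    have hb1' := hbd (zz T t ρ)
    rw [hre, him] at hb1'
    have hexp := exp_depth99 hb hT0 hL0 hr.1.le hr.2.le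
    have hy : 1 + |t - (ρ:ℂ).im| ≤ 1 + |Real.log T * ((ρ:ℂ).im - t)| := by
      rw [abs_mul, abs_of_pos hL0, abs_sub_comm]
      nlinarith [abs_nonneg ((ρ:ℂ).im - t)]
    have h1 : ‖LT w (zz T t ρ)‖ ≤ D * ((1 + |t - (ρ:ℂ).im|) ^ (n + 2))⁻¹ := by
      refine hb1'.trans ?_
      rw [div_eq_mul_inv, hDd]
      gcongr
    calc mx ρ * ‖LT w (zz T t ρ)‖ ≤ mx ρ * (D * ((1 + |t - (ρ:ℂ).im|) ^ (n + 2))⁻¹) :=
          mul_le_mul_of_nonneg_left h1 hm0
      _ = _ := by ring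
  obtain ⟨i1, i2⟩ := edge_gen99 hT hR1 hD.le (fun t => ‖GG T w t‖) (GG_cont h T).norm hb1
  refine ⟨i1, ?_⟩
  rw [← hRd]
  refine i2.trans ?_
  have hbr : 4 * CLA * Real.log T * (4 * R) + 1 / R ^ n * (Real.pi * NT T) ≤
      (16 * CLA + 4) * Real.log T * R := by
    have h1 : 1 / R ^ n * (Real.pi * NT T) ≤ 4 * Real.log T := by
      have h2 : 1 / R ^ n * (Real.pi * NT T) ≤ 1 / T ^ 4 * (4 * (T * Real.log T)) := by
        have := Real.pi_le_four
        have h0 : 0 ≤ NT T := by rw [← sum_ZT_mx]; exact Finset.sum_nonneg fun ρ _ => mx_nonneg _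
        gcongr
      refine h2.trans ?_
      have h3 : 1 / T ^ 4 * (4 * (T * Real.log T)) = 4 * Real.log T * (1 / T ^ 3) := by
        field_simp
      rw [h3]
      have h4 : 1 / T ^ 3 ≤ 1 := by
        rw [div_le_one (by positivity)]
        exact one_le_pow₀ hT1
      have h5 : 0 ≤ 4 * Real.log T := by positivity
      calc 4 * Real.log T * (1 / T ^ 3) ≤ 4 * Real.log T * 1 := mul_le_mul_of_nonneg_left h4 h5
        _ = _ := mul_one _
    nlinarith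
  have A2 : D ^ 2 * (4 * CLA * Real.log T) * ((16 * CLA + 4) * Real.log T * R) ≤ ε * T := by
    rw [Real.rpow_add hT0, Real.rpow_add hT0] at hl
    rw [hDd, hRd]
    calc (C * T ^ (b / 2)) ^ 2 * (4 * CLA * Real.log T) * ((16 * CLA + 4) * Real.log T * T ^ η) =
          ε * (C ^ 2 * (4 * CLA) * (16 * CLA + 4) / ε * Real.log T ^ 2 *
            (T ^ (b / 2) * T ^ (b / 2) * T ^ η)) := by
          field_simp
      _ ≤ ε * T := by gcongr
  exact (mul_le_mul_of_nonneg_left hbr (by positivity)).trans A2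

/-! ### the upper bound -/

lemma VW_nonneg99 (w : ℝ → ℝ) : 0 ≤ VW w := by
  unfold VW
  refine setIntegral_nonneg measurableSet_Ioi fun x hx => ?_
  have hx' : (0:ℝ) < x := hx
  have : 0 ≤ min x 1 := le_min hx'.le zero_le_one
  positivity

/-- **T1** -/
theorem up_mid {w : ℝ → ℝ} {a b : ℝ} (h : WR w a b) (hb : b < 1) {ε : ℝ} (hε : 0 < ε) :
    ∀ᶠ T : ℝ in atTop, ∫ x : ℝ, w x ^ 2 * ff T x ≤ VW w + ε := by
  have ha : 0 < a := h.2.1
  have hb0 : 0 < b := ha.trans_le h.2.2.1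
  have hV := VW_nonneg99 w
  obtain ⟨V, hVd⟩ : ∃ V, V = VW w := ⟨_, rfl⟩
  rw [← hVd] at hV ⊢
  obtain ⟨η, hηd⟩ : ∃ η, η = (1 - b) / 2 := ⟨_, rfl⟩
  have hη : 0 < η := by rw [hηd]; linarith
  have hbη : b + η < 1 := by rw [hηd]; linarith
  obtain ⟨e2, he2⟩ : ∃ e2, e2 = min 1 (ε / (4 * (V + ε + 2))) := ⟨_, rfl⟩
  have he20 : 0 < e2 := by rw [he2]; positivity
  have he21 : e2 ≤ 1 := by rw [he2]; exact min_le_left _ _
  have he22 : e2 * (V + ε + 2) ≤ ε / 4 := by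
    have h1 : e2 ≤ ε / (4 * (V + ε + 2)) := by rw [he2]; exact min_le_right _ _
    have h2 : 0 < V + ε + 2 := by linarith
    calc e2 * (V + ε + 2) ≤ ε / (4 * (V + ε + 2)) * (V + ε + 2) := by gcongr
      _ = ε / 4 := by field_simp
  filter_upwards [ef_wide h.toWC hb hη he20, edge_wide h.toWC hη hbη (show 0 < ε / 4 by linarith),
    short_law h hb (show 0 < ε / 4 by linarith), eventually_ge_atTop 3] with T hef hed hsh hT
  obtain ⟨hi, hed2⟩ := hed
  have hT0 : 0 < T := by linarith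
  have hT1 : 1 < T := by linarith
  rw [← (ff_planch (w := w) h hT).2]
  have hGc := GG_cont h.toWC T
  have hPc := PP_cont hT1 h.toWC
  set P : ℝ → ℂ := PP T (fun x => (w x : ℂ)) with hP
  set G : ℝ → ℂ := GG T (fun x => (w x : ℂ)) with hG
  set M : Set ℝ := Icc (T ^ η) (T - T ^ η) with hM
  have hTη : 0 < T ^ η := Real.rpow_pos_of_pos hT0 _
  -- the primes
  have hPint : ∫ t in (0:ℝ)..T, ‖P t‖ ^ 2 ≤ T * (V + ε / 4) := by
    obtain ⟨B, hB⟩ := (isCompact_Icc (a := (0:ℝ)) (b := T)).exists_bound_of_continuousOn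
      (f := fun t => ‖P t‖ ^ 2) (hPc.norm.pow 2).continuousOn
    have h1 := hsh B
    unfold MP at h1
    have h2 : ∫ t in (0:ℝ)..T, min (‖P t‖ ^ 2) B = ∫ t in (0:ℝ)..T, ‖P t‖ ^ 2 := by
      refine intervalIntegral.integral_congr fun t ht => ?_
      rw [uIcc_of_le hT0.le] at ht
      have h3 := hB t ht
      rw [Real.norm_of_nonneg (by positivity)] at h3
      exact min_eq_left h3
    rw [← hP, h2, ← hVd] at h1
    rw [one_div, inv_mul_le_iff₀ hT0] at h1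
    exact h1
  -- the middle
  have hmid : ∫ t in M, ‖G t‖ ^ 2 ≤ T * ((1 + e2) * (V + ε / 4) + 2 * e2) := by
    have hpt : ∀ t ∈ M, ‖G t‖ ^ 2 ≤ (1 + e2) * ‖P t‖ ^ 2 + 2 * e2 := by
      intro t ht
      have h1 := hef t ht.1 ht.2
      have h2 : ‖G t‖ ≤ ‖P t‖ + e2 := by
        calc ‖G t‖ = ‖(P t + G t) - P t‖ := by congr 1; ring
          _ ≤ ‖P t + G t‖ + ‖P t‖ := norm_sub_le _ _
          _ ≤ _ := by linarith
      have h3 : ‖G t‖ ^ 2 ≤ (‖P t‖ + e2) ^ 2 := by gcongr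
      nlinarith [norm_nonneg (P t), sq_nonneg (‖P t‖ - 1), mul_nonneg he20.le (sq_nonneg (‖P t‖ - 1)),
        mul_nonneg he20.le (by linarith : 0 ≤ 1 - e2)]
    have hMsub : M ⊆ Ioc 0 T := by
      intro t ht
      exact ⟨by linarith [ht.1], by linarith [ht.2]⟩
    have hIon : IntegrableOn (fun t => (1 + e2) * ‖P t‖ ^ 2 + 2 * e2) (Ioc 0 T) := by
      have hc : Continuous (fun t => (1 + e2) * ‖P t‖ ^ 2 + 2 * e2) := by
        have := hPc.norm.pow 2
        fun_prop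
      exact (hc.integrableOn_Icc (a := 0) (b := T)).mono_set Ioc_subset_Icc_self
    calc ∫ t in M, ‖G t‖ ^ 2 ≤ ∫ t in M, ((1 + e2) * ‖P t‖ ^ 2 + 2 * e2) :=
          setIntegral_mono_on hi.integrableOn (hIon.mono_set hMsub) measurableSet_Icc hpt
      _ ≤ ∫ t in Ioc 0 T, ((1 + e2) * ‖P t‖ ^ 2 + 2 * e2) := by
          refine setIntegral_mono_set hIon (Eventually.of_forall fun t => ?_) hMsub.eventuallyLE
          simp only [Pi.zero_apply]
          positivity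
      _ = ∫ t in (0:ℝ)..T, ((1 + e2) * ‖P t‖ ^ 2 + 2 * e2) := (intervalIntegral.integral_of_le hT0.le).symm
      _ = (1 + e2) * (∫ t in (0:ℝ)..T, ‖P t‖ ^ 2) + T * (2 * e2) := by
          rw [intervalIntegral.integral_add, intervalIntegral.integral_const_mul, intervalIntegral.integral_const]
          · simp
          · exact ((hPc.norm.pow 2).intervalIntegrable _ _).const_mul _
          · exact intervalIntegrable_const
      _ ≤ (1 + e2) * (T * (V + ε / 4)) + T * (2 * e2) := by gcongr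
      _ = _ := by ring
  have hsplit : ∫ t, ‖G t‖ ^ 2 = (∫ t in M, ‖G t‖ ^ 2) + ∫ t in Mᶜ, ‖G t‖ ^ 2 :=
    (integral_add_compl measurableSet_Icc hi).symm
  rw [hsplit, one_div, inv_mul_le_iff₀ hT0]
  calc (∫ t in M, ‖G t‖ ^ 2) + ∫ t in Mᶜ, ‖G t‖ ^ 2 ≤
        T * ((1 + e2) * (V + ε / 4) + 2 * e2) + ε / 4 * T := add_le_add hmid hed2
    _ = T * (V + ε / 4 + e2 * (V + ε / 4 + 2) + ε / 4) := by ring
    _ ≤ T * (V + ε) := by
        refine mul_le_mul_of_nonneg_left ?_ hT0.le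
        have : e2 * (V + ε / 4 + 2) ≤ e2 * (V + ε + 2) := by
          refine mul_le_mul_of_nonneg_left ?_ he20.le
          linarith
        linarith

end Pool.Agent.Helper99.HZ
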