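import Pool.Agent.Helper57.FL.Zla
import Pool.Agent.Helper92.RG.SecMom

/-!
# HZ-T2: the form factor near zero, upper bound

`∫ h² ff T = (1/T) ∫ Xs²` for even `h` (`xs_planch`), so `RG.xs_second` gives `∫_{-κ}^κ ff T ≤ 1 + 4κ² + ε`.
-/

set_option autoImplicit false

open MeasureTheory Set Filter Topology
open scoped ContDiff

namespace Pool.Agent.Helper99.HZ

open Pool.Agent.Helper57.LH Pool.Agent.Helper57.PC Pool.Agent.Helper57.Zeta Pool.Agent.Helper57.FL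
open Pool.Agent.Helper78.SG Pool.Agent.Helper92.RG

/-- `∫ h(y) e^{yz} dy` -/
private noncomputable def II (h : ℝ → ℝ) (z : ℂ) : ℂ := ∫ y : ℝ, (h y : ℂ) * Complex.exp ((y : ℂ) * z)

private lemma h_cs (f : TF) : HasCompactSupport f.h :=
  HasCompactSupport.intro (isCompact_Icc (a := -f.th) (b := f.th)) fun x hx => by
    apply f.supp
    by_contra h
    push Not at h
    exact hx ⟨by linarith [neg_abs_le x], by linarith [le_abs_self x]⟩

private lemma II_int (f : TF) (z : ℂ) : Integrable (fun y : ℝ => (f.h y : ℂ) * Complex.exp ((y : ℂ) * z)) := by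
  refine Continuous.integrable_of_hasCompactSupport ?_ ?_
  · have h1 : Continuous fun y : ℝ => (f.h y : ℂ) := Complex.continuous_ofReal.comp f.smooth.continuous
    fun_prop
  · refine HasCompactSupport.mul_right ?_
    exact (h_cs f).comp_left (g := fun x : ℝ => (x : ℂ)) (by simp)

private lemma II_neg (f : TF) (z : ℂ) : II f.h (-z) = II f.h z := by
  unfold II
  rw [← integral_neg_eq_self (fun y : ℝ => (f.h y : ℂ) * Complex.exp ((y : ℂ) * z))]
  refine integral_congr_ae (Eventually.of_forall fun y => ?_)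
  simp only
  rw [f.even]
  congr 2
  push_cast
  ring

private lemma int4 {a b c d : ℝ → ℂ} (ha : Integrable a) (hb : Integrable b) (hc : Integrable c) (hd : Integrable d) :
    (∫ x, a x) + (∫ x, b x) + (∫ x, c x) + (∫ x, d x) = ∫ x, (a x + b x + c x + d x) := by
  have h1 : ∫ x, (a x + b x + c x + d x) = (∫ x, (a x + b x + c x)) + ∫ x, d x := integral_add ((ha.add hb).add hc) hd
  have h2 : ∫ x, (a x + b x + c x) = (∫ x, (a x + b x)) + ∫ x, c x := integral_add (ha.add hb) hc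
  have h3 : ∫ x, (a x + b x) = (∫ x, a x) + ∫ x, b x := integral_add ha hb
  rw [h1, h2, h3]

private lemma ker_II (f : TF) (a u : ℝ) : (ker f.h a u : ℂ) =
    1 / 2 * (II f.h ((a : ℂ) - u * Complex.I) + II f.h ((a : ℂ) + u * Complex.I)) := by
  have h1 : (ker f.h a u : ℂ) = 1 / 4 * (II f.h ((a : ℂ) - u * Complex.I) + II f.h ((a : ℂ) + u * Complex.I) +
      II f.h (-((a : ℂ) - u * Complex.I)) + II f.h (-((a : ℂ) + u * Complex.I))) := by
    unfold Pool.Agent.Helper78.SG.ker II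
    rw [← integral_complex_ofReal, int4 (II_int f _) (II_int f _) (II_int f _) (II_int f _), ← integral_const_mul]
    refine integral_congr_ae (Eventually.of_forall fun y => ?_)
    simp only
    push_cast
    rw [Complex.cosh, Complex.cos]
    have e1 : Complex.exp ((y : ℂ) * ((a : ℂ) - u * Complex.I)) = Complex.exp (a * y) * Complex.exp (-(u * y) * Complex.I) := by
      rw [← Complex.exp_add]
      congr 1
      ring
    have e2 : Complex.exp ((y : ℂ) * ((a : ℂ) + u * Complex.I)) = Complex.exp (a * y) * Complex.exp (u * y * Complex.I) := by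
      rw [← Complex.exp_add]
      congr 1
      ring
    have e3 : Complex.exp ((y : ℂ) * -((a : ℂ) - u * Complex.I)) = Complex.exp (-(a * y)) * Complex.exp (u * y * Complex.I) := by
      rw [← Complex.exp_add]
      congr 1
      ring
    have e4 : Complex.exp ((y : ℂ) * -((a : ℂ) + u * Complex.I)) = Complex.exp (-(a * y)) * Complex.exp (-(u * y) * Complex.I) := by
      rw [← Complex.exp_add]
      congr 1
      ring
    rw [e1, e2, e3, e4]
    ring
  rw [h1, II_neg, II_neg]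
  ring

/-- the exponential sum over the zeros -/
private noncomputable def DD2 (T : ℝ) (x : ℝ) : ℂ :=
  ∑ ρ ∈ Zf T, (mx ρ : ℂ) * Complex.exp ((x : ℂ) * ((Real.log T : ℂ) * (ρ - 1 / 2)))

private lemma mem_Zf2 {T : ℝ} {ρ : ℂ} : ρ ∈ Zf T ↔ xi ρ = 0 ∧ 0 ≤ ρ.im ∧ ρ.im ≤ T := by
  rw [mem_Zf, isNontrivialZero_iff]

private lemma sum_refl (T : ℝ) (F : ℂ → ℂ) : ∑ ρ ∈ Zf T, (mx ρ : ℂ) * F (1 - starRingEnd ℂ ρ) = ∑ ρ ∈ Zf T, (mx ρ : ℂ) * F ρ := by
  have hm : ∀ ρ ∈ Zf T, 1 - starRingEnd ℂ ρ ∈ Zf T := by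
    intro ρ hρ
    rw [mem_Zf2] at hρ ⊢
    obtain ⟨h1, h2, h3⟩ := hρ
    have e3 : (1 - starRingEnd ℂ ρ).im = ρ.im := by simp
    rw [e3]
    exact ⟨by rw [xi_one_sub, xi_conj, h1, map_zero], h2, h3⟩
  refine Finset.sum_nbij' (fun ρ => 1 - starRingEnd ℂ ρ) (fun ρ => 1 - starRingEnd ℂ ρ) hm hm ?_ ?_ ?_
  · intro ρ _
    simp
  · intro ρ _
    simp
  · intro ρ _
    congr 2
    unfold mx
    rw [order_one_sub, order_conj]

private lemma Xs_Ft (f : TF) (T t : ℝ) : Ft (fun y => (f.h y : ℂ) * DD2 T y) (Real.log T * t) = (Xs f.h T t : ℂ) := by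
  obtain ⟨L, hL⟩ : ∃ L, L = Real.log T := ⟨_, rfl⟩
  rw [← hL]
  -- the left side
  have e1 : Ft (fun y => (f.h y : ℂ) * DD2 T y) (L * t) = ∑ ρ ∈ Zf T, (mx ρ : ℂ) * II f.h ((L : ℂ) * (ρ - 1 / 2) - (L * t : ℝ) * Complex.I) := by
    unfold Ft DD2
    rw [← hL]
    have e2 : ∀ ρ : ℂ, (mx ρ : ℂ) * II f.h ((L : ℂ) * (ρ - 1 / 2) - (L * t : ℝ) * Complex.I) =
        ∫ y : ℝ, (mx ρ : ℂ) * ((f.h y : ℂ) * Complex.exp ((y : ℂ) * ((L : ℂ) * (ρ - 1 / 2) - (L * t : ℝ) * Complex.I))) := fun ρ =>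
      (integral_const_mul _ _).symm
    simp_rw [e2]
    rw [← integral_finsetSum _ (fun ρ _ => (II_int f _).const_mul _)]
    refine integral_congr_ae (Eventually.of_forall fun y => ?_)
    simp only
    rw [Finset.mul_sum, Finset.sum_mul]
    refine Finset.sum_congr rfl fun ρ _ => ?_
    have e3 : Complex.exp ((y : ℂ) * ((L : ℂ) * (ρ - 1 / 2) - (L * t : ℝ) * Complex.I)) =
        Complex.exp ((y : ℂ) * ((L : ℂ) * (ρ - 1 / 2))) * Complex.exp (-(((L * t * y : ℝ) : ℂ) * Complex.I)) := by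
      rw [← Complex.exp_add]
      congr 1
      push_cast
      ring
    rw [e3]
    ring
  -- the right side
  have e4 : (Xs f.h T t : ℂ) = ∑ ρ ∈ Zf T, (mx ρ : ℂ) * (1 / 2 * (II f.h ((L : ℂ) * (ρ - 1 / 2) - (L * t : ℝ) * Complex.I) +
      II f.h ((L : ℂ) * ((1 - starRingEnd ℂ ρ) - 1 / 2) - (L * t : ℝ) * Complex.I))) := by
    unfold Xs
    rw [sum_ZT T (fun ρ => mx ρ * kz f.h (Real.log T) t ρ), ← hL, Complex.ofReal_sum]
    refine Finset.sum_congr rfl fun ρ _ => ?_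
    rw [Complex.ofReal_mul]
    congr 1
    unfold kz
    rw [ker_II]
    have hρ : ρ = (ρ.re : ℂ) + (ρ.im : ℂ) * Complex.I := (Complex.re_add_im ρ).symm
    have hρ2 : starRingEnd ℂ ρ = (ρ.re : ℂ) - (ρ.im : ℂ) * Complex.I := by
      apply Complex.ext
      · simp
      · simp
    have q1 : ((L * (ρ.re - 1 / 2) : ℝ) : ℂ) - ((L * (t - ρ.im) : ℝ) : ℂ) * Complex.I =
        (L : ℂ) * (ρ - 1 / 2) - (L * t : ℝ) * Complex.I := by
      conv_rhs => rw [hρ]
      push_cast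
      ring
    have q2 : ((L * (ρ.re - 1 / 2) : ℝ) : ℂ) + ((L * (t - ρ.im) : ℝ) : ℂ) * Complex.I =
        -((L : ℂ) * ((1 - starRingEnd ℂ ρ) - 1 / 2) - (L * t : ℝ) * Complex.I) := by
      rw [hρ2]
      push_cast
      ring
    rw [q1, q2, II_neg]
  rw [e1, e4]
  have e5 := sum_refl T (fun ρ => II f.h ((L : ℂ) * (ρ - 1 / 2) - (L * t : ℝ) * Complex.I))
  have e6 : ∑ ρ ∈ Zf T, (mx ρ : ℂ) * (1 / 2 * (II f.h ((L : ℂ) * (ρ - 1 / 2) - (L * t : ℝ) * Complex.I) +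
      II f.h ((L : ℂ) * ((1 - starRingEnd ℂ ρ) - 1 / 2) - (L * t : ℝ) * Complex.I))) =
      1 / 2 * (∑ ρ ∈ Zf T, (mx ρ : ℂ) * II f.h ((L : ℂ) * (ρ - 1 / 2) - (L * t : ℝ) * Complex.I)) +
      1 / 2 * (∑ ρ ∈ Zf T, (mx ρ : ℂ) * II f.h ((L : ℂ) * ((1 - starRingEnd ℂ ρ) - 1 / 2) - (L * t : ℝ) * Complex.I)) := by
    rw [Finset.mul_sum, Finset.mul_sum, ← Finset.sum_add_distrib]
    refine Finset.sum_congr rfl fun ρ _ => ?_
    ring
  rw [e6, e5]
  ring

private lemma DD2_contDiff (T : ℝ) : ContDiff ℝ (⊤ : ℕ∞) (DD2 T) := by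
  unfold DD2
  refine ContDiff.sum fun ρ _ => ?_
  refine contDiff_const.mul ?_
  refine ContDiff.cexp ?_
  exact (Complex.ofRealCLM.contDiff).mul contDiff_const

/-- Plancherel for the sum at the true depth -/
theorem xs_planch (f : TF) {T : ℝ} (hT : 1 < T) : (1 / T) * ∫ t, Xs f.h T t ^ 2 = ∫ x : ℝ, f.h x ^ 2 * ff T x := by
  have hT0 : 0 < T := by linarith
  have hL : 0 < Real.log T := Real.log_pos hT
  have hf : ContDiff ℝ (⊤ : ℕ∞) (fun x => (f.h x : ℂ) * DD2 T x) :=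
    (Complex.ofRealCLM.contDiff.comp f.smooth).mul (DD2_contDiff T)
  have hc : HasCompactSupport (fun x => (f.h x : ℂ) * DD2 T x) := by
    refine HasCompactSupport.mul_right ?_
    exact (h_cs f).comp_left (g := fun x : ℝ => (x : ℂ)) (by simp)
  obtain ⟨-, h2, h3⟩ := Ft_planch hf hc
  have e : (fun t : ℝ => Xs f.h T t ^ 2) =
      fun t => (fun u => ‖Ft (fun x => (f.h x : ℂ) * DD2 T x) u‖ ^ 2) (Real.log T * t) := by
    funext t
    simp only
    rw [Xs_Ft, Complex.norm_real, Real.norm_eq_abs, sq_abs]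
  rw [e, MeasureTheory.Measure.integral_comp_mul_left (fun u => ‖Ft (fun x => (f.h x : ℂ) * DD2 T x) u‖ ^ 2), h3,
    smul_eq_mul, abs_of_pos (inv_pos.mpr hL)]
  have e4 : ∀ x, f.h x ^ 2 * ff T x = (2 * Real.pi / (T * Real.log T)) * ‖(f.h x : ℂ) * DD2 T x‖ ^ 2 := by
    intro x
    have h5 : ∑ ρ ∈ Zf T, (mx ρ : ℂ) * (T : ℂ) ^ ((x : ℂ) * (ρ - 1 / 2)) = DD2 T x := by
      unfold DD2
      refine Finset.sum_congr rfl fun ρ _ => ?_
      rw [Complex.cpow_def_of_ne_zero (by exact_mod_cast hT0.ne'), ← Complex.ofReal_log hT0.le]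
      congr 2
      ring
    unfold ff
    rw [h5, norm_mul, mul_pow, Complex.norm_real, Real.norm_eq_abs, sq_abs]
    ring
  simp_rw [e4]
  rw [integral_const_mul]
  field_simp

private lemma kap_le (f : TF) {κ : ℝ} (hκ : 0 < κ) (hκ1 : 2 * κ < 1 / 2) (hth : f.th = 2 * κ) (h0 : ∀ x, 0 ≤ f.h x) (h1 : ∀ x, f.h x ≤ 1) :
    kap0 f.h ≤ 1 + 4 * κ ^ 2 := by
  unfold kap0
  have hc : Continuous fun y => y * f.h y ^ 2 := continuous_id.mul (f.smooth.continuous.pow 2)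
  have h2 : ∫ y in (0:ℝ)..(1 / 2), y * f.h y ^ 2 ≤ 2 * κ ^ 2 := by
    have h3 : ∫ y in (0:ℝ)..(1 / 2), y * f.h y ^ 2 = (∫ y in (0:ℝ)..(2 * κ), y * f.h y ^ 2) + ∫ y in (2 * κ)..(1 / 2), y * f.h y ^ 2 :=
      (intervalIntegral.integral_add_adjacent_intervals (hc.intervalIntegrable _ _) (hc.intervalIntegrable _ _)).symm
    have h4 : ∫ y in (2 * κ)..(1 / 2), y * f.h y ^ 2 = 0 := by
      rw [intervalIntegral.integral_congr (g := fun _ => (0:ℝ)), intervalIntegral.integral_zero]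
      intro y hy
      rw [uIcc_of_le hκ1.le] at hy
      simp only
      rw [f.supp y (by rw [hth, abs_of_nonneg (by linarith [hy.1])]; exact hy.1)]
      ring
    have h5 : ∫ y in (0:ℝ)..(2 * κ), y * f.h y ^ 2 ≤ ∫ y in (0:ℝ)..(2 * κ), y := by
      refine intervalIntegral.integral_mono_on (by linarith) (hc.intervalIntegrable _ _) (continuous_id.intervalIntegrable _ _) ?_
      intro y hy
      have h6 : f.h y ^ 2 ≤ 1 := pow_le_one₀ (h0 y) (h1 y)
      calc y * f.h y ^ 2 ≤ y * 1 := mul_le_mul_of_nonneg_left h6 hy.1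
        _ = y := mul_one y
    rw [integral_id] at h5
    rw [h3, h4]
    nlinarith
  have h3 : f.h 0 ^ 2 ≤ 1 := pow_le_one₀ (h0 0) (h1 0)
  linarith

theorem up_low {κ : ℝ} (hκ : 0 < κ) (hκ1 : κ < 1 / 4) {ε : ℝ} (hε : 0 < ε) : ∀ᶠ T : ℝ in atTop,
    ∫ x in (-κ)..κ, ff T x ≤ 1 + 4 * κ ^ 2 + ε := by
  obtain ⟨b, hb1, hb2⟩ : ∃ b : ContDiffBump (0 : ℝ), b.rIn = κ ∧ b.rOut = 2 * κ := ⟨⟨κ, 2 * κ, hκ, by linarith⟩, rfl, rfl⟩
  obtain ⟨f, hfh, hfth⟩ : ∃ f : TF, f.h = (fun x => b x) ∧ f.th = 2 * κ := by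
    refine ⟨⟨fun x => b x, 2 * κ, b.contDiff, fun x => b.neg x, by linarith, by linarith, fun x hx => ?_⟩, rfl, rfl⟩
    apply b.zero_of_le_dist
    rw [Real.dist_eq, sub_zero, hb2]
    exact hx
  have h0 : ∀ x, 0 ≤ f.h x := by
    intro x
    rw [hfh]
    exact b.nonneg
  have h1 : ∀ x, f.h x ≤ 1 := by
    intro x
    rw [hfh]
    exact b.le_one
  have hone : ∀ x, |x| ≤ κ → f.h x = 1 := by
    intro x hx
    rw [hfh]
    apply b.one_of_mem_closedBall
    rw [Metric.mem_closedBall, Real.dist_eq, sub_zero, hb1]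
    exact hx
  have hk := kap_le f hκ (by linarith) hfth h0 h1
  filter_upwards [xs_second f hε, eventually_gt_atTop (1 : ℝ)] with T hT hT1
  have hT0 : 0 < T := by linarith
  have h2 := xs_planch f hT1
  have h3 : (1 / T) * ∫ t, Xs f.h T t ^ 2 ≤ kap0 f.h + ε := by
    have h4 := (abs_le.1 hT).2
    rw [one_div, inv_mul_le_iff₀ hT0]
    linarith
  have hc : Continuous fun x => f.h x ^ 2 * ff T x := (f.smooth.continuous.pow 2).mul (ff_cont hT1)
  have hi : Integrable fun x => f.h x ^ 2 * ff T x := by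
    refine hc.integrable_of_hasCompactSupport ?_
    refine HasCompactSupport.mul_right ?_
    exact (h_cs f).comp_left (g := fun x : ℝ => x ^ 2) (by simp)
  have h5 : ∫ x in (-κ)..κ, ff T x ≤ ∫ x : ℝ, f.h x ^ 2 * ff T x := by
    rw [intervalIntegral.integral_of_le (by linarith)]
    calc ∫ x in Ioc (-κ) κ, ff T x = ∫ x in Ioc (-κ) κ, f.h x ^ 2 * ff T x := by
          refine setIntegral_congr_fun measurableSet_Ioc fun x hx => ?_
          rw [hone x (abs_le.2 ⟨hx.1.le, hx.2⟩)]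
          ring
      _ ≤ _ := setIntegral_le_integral hi (Eventually.of_forall fun x => mul_nonneg (sq_nonneg _) (ff_nonneg hT1.le x))
  linarith

end Pool.Agent.Helper99.HZ
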