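import Pool.Agent.Helper99.HZ.T1
import Pool.Agent.Helper99.HZ.T2

/-!
# HZ: the form factor on `(-1,1)` from above, in the mean

`up_all`: for every continuous `h ≥ 0` vanishing for `|x| ≥ θ`, `θ < 1`, and every `ε > 0`, for all large `T`:
`∫ h(x) F_T(x) dx ≤ h(0) + ∫ |x| h(x) dx + ε`, unconditionally. From `up_low` (near `0`) and `up_mid` (away from `0`).
-/

set_option autoImplicit false

open MeasureTheory Set Filter Topology
open scoped ContDiff

namespace Pool.Agent.Helper99.HZ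

open Pool.Agent.Helper57.LH Pool.Agent.Helper57.PC Pool.Agent.Helper57.Zeta Pool.Agent.Helper57.FL
open Pool.Agent.Helper93.LP

private lemma mem_Zf99 {T : ℝ} {ρ : ℂ} : ρ ∈ Zf T ↔ xi ρ = 0 ∧ 0 ≤ ρ.im ∧ ρ.im ≤ T := by
  rw [mem_Zf, isNontrivialZero_iff]

/-- reflection `ρ ↦ 1 - conj ρ` of the zeros up to height `T` -/
lemma sum_refl99 (T : ℝ) (F : ℂ → ℂ) :
    ∑ ρ ∈ Zf T, (mx ρ : ℂ) * F (1 - starRingEnd ℂ ρ) = ∑ ρ ∈ Zf T, (mx ρ : ℂ) * F ρ := by
  have hm : ∀ ρ ∈ Zf T, 1 - starRingEnd ℂ ρ ∈ Zf T := by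
    intro ρ hρ
    rw [mem_Zf99] at hρ ⊢
    obtain ⟨h1, h2, h3⟩ := hρ
    have e3 : (1 - starRingEnd ℂ ρ).im = ρ.im := by simp
    rw [e3]
    exact ⟨by rw [xi_one_sub, xi_conj, h1, map_zero], h2, h3⟩
  refine Finset.sum_nbij' (fun ρ => 1 - starRingEnd ℂ ρ) (fun ρ => 1 - starRingEnd ℂ ρ) hm hm ?_ ?_ ?_
  · intro ρ _
    simp
  · intro ρ _
    simp
  · intro ρ _
    congr 2
    unfold mx
    rw [order_one_sub, order_conj]

/-- the form factor is even -/
theorem ff_even {T : ℝ} (hT : 0 < T) (x : ℝ) : ff T (-x) = ff T x := by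
  unfold ff
  congr 1
  have e1 : ∀ y : ℝ, ∑ ρ ∈ Zf T, (mx ρ : ℂ) * (T : ℂ) ^ ((y : ℂ) * (ρ - 1 / 2)) =
      ∑ ρ ∈ Zf T, (mx ρ : ℂ) * Complex.exp ((y : ℂ) * ((Real.log T : ℂ) * (ρ - 1 / 2))) := by
    intro y
    refine Finset.sum_congr rfl fun ρ _ => ?_
    rw [Complex.cpow_def_of_ne_zero (by exact_mod_cast hT.ne'), ← Complex.ofReal_log hT.le]
    congr 2
    ring
  rw [e1, e1, ← sum_refl99 T (fun ρ => Complex.exp (((-x : ℝ) : ℂ) * ((Real.log T : ℂ) * (ρ - 1 / 2))))]
  have e2 : ∑ ρ ∈ Zf T, (mx ρ : ℂ) * Complex.exp (((-x : ℝ) : ℂ) * ((Real.log T : ℂ) * ((1 - starRingEnd ℂ ρ) - 1 / 2))) =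
      starRingEnd ℂ (∑ ρ ∈ Zf T, (mx ρ : ℂ) * Complex.exp ((x : ℂ) * ((Real.log T : ℂ) * (ρ - 1 / 2)))) := by
    rw [map_sum]
    refine Finset.sum_congr rfl fun ρ _ => ?_
    rw [map_mul, Complex.conj_ofReal, ← Complex.exp_conj, map_mul, map_mul, Complex.conj_ofReal, Complex.conj_ofReal,
      map_sub]
    congr 2
    push_cast
    have : starRingEnd ℂ (1 / 2 : ℂ) = 1 / 2 := by
      rw [map_div₀, map_one, Complex.conj_ofNat]
    rw [this]
    ring
  rw [e2, RCLike.norm_conj]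

/-- a smooth weight above the square root of a continuous function -/
private lemma weight99 {k : ℝ → ℝ} (hk : Continuous k) (hk0 : ∀ x, 0 ≤ k x) {κ θ : ℝ} (hκ : 0 < κ) (hκθ : κ < θ)
    (hθ : θ < 1) {ε : ℝ} (hε : 0 < ε) :
    ∃ (w : ℝ → ℝ) (a b : ℝ), WR w a b ∧ b < 1 ∧ (∀ x ∈ Icc κ θ, k x ≤ w x ^ 2) ∧
      VW w ≤ (∫ x in (0:ℝ)..1, x * k x) + ε := by
  -- the bump
  obtain ⟨r, hr⟩ : ∃ r : ℝ, r = min (κ / 2) ((1 - θ) / 2) := ⟨_, rfl⟩
  have hr0 : 0 < r := by rw [hr]; exact lt_min (by linarith) (by linarith)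
  have hr1 : r ≤ κ / 2 := by rw [hr]; exact min_le_left _ _
  have hr2 : r ≤ (1 - θ) / 2 := by rw [hr]; exact min_le_right _ _
  obtain ⟨φ, hφ1, hφ2⟩ : ∃ φ : ContDiffBump ((κ + θ) / 2 : ℝ), φ.rIn = (θ - κ) / 2 ∧ φ.rOut = (θ - κ) / 2 + r :=
    ⟨⟨(θ - κ) / 2, (θ - κ) / 2 + r, by linarith, by linarith⟩, rfl, rfl⟩
  -- bounds
  obtain ⟨M, hM⟩ := (isCompact_Icc (a := (0:ℝ)) (b := 1)).exists_bound_of_continuousOn (f := k) hk.continuousOn
  have hM0 : 0 ≤ M := (norm_nonneg _).trans (hM 0 ⟨le_rfl, zero_le_one⟩)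
  obtain ⟨δ, hδ⟩ : ∃ δ : ℝ, δ = min 1 (ε / (4 * (M + 1) + 4)) := ⟨_, rfl⟩
  have hδ0 : 0 < δ := by rw [hδ]; exact lt_min one_pos (by positivity)
  have hδ1 : δ ≤ 1 := by rw [hδ]; exact min_le_left _ _
  have hδ2 : δ * (4 * (M + 1) + 4) ≤ ε := by
    have h1 : δ ≤ ε / (4 * (M + 1) + 4) := by rw [hδ]; exact min_le_right _ _
    rwa [le_div_iff₀ (by positivity)] at h1
  -- the square root
  obtain ⟨p, hp⟩ := exists_polynomial_near_of_continuousOn 0 1 (fun x => Real.sqrt (k x) + δ)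
    ((hk.sqrt.add continuous_const).continuousOn) δ hδ0
  have hp1 : ∀ x ∈ Icc (0:ℝ) 1, Real.sqrt (k x) ≤ p.eval x := fun x hx => by
    have := abs_lt.mp (hp x hx)
    linarith [this.1]
  have hp2 : ∀ x ∈ Icc (0:ℝ) 1, p.eval x ≤ Real.sqrt (k x) + 2 * δ := fun x hx => by
    have := abs_lt.mp (hp x hx)
    linarith [this.2]
  have hsupp : ∀ x, φ x * p.eval x ≠ 0 → κ - r ≤ x ∧ x ≤ θ + r := by
    intro x hx
    have h1 : φ x ≠ 0 := left_ne_zero_of_mul hx
    by_contra h2
    apply h1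
    apply φ.zero_of_le_dist
    rw [hφ2, Real.dist_eq]
    rw [not_and_or, not_le, not_le] at h2
    rcases h2 with h2 | h2
    · rw [le_abs]; right; linarith
    · rw [le_abs]; left; linarith
  refine ⟨fun x => φ x * p.eval x, κ - r, θ + r, ⟨?_, by linarith, by linarith, hsupp⟩, by linarith, ?_, ?_⟩
  · exact φ.contDiff.mul (by simpa using p.contDiff_aeval (𝕜 := ℝ) (⊤ : ℕ∞))
  · intro x hx
    have h1 : φ x = 1 := by
      apply φ.one_of_mem_closedBall
      rw [Metric.mem_closedBall, Real.dist_eq, hφ1, abs_le]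
      constructor <;> linarith [hx.1, hx.2]
    have hx01 : x ∈ Icc (0:ℝ) 1 := ⟨by linarith [hx.1], by linarith [hx.2]⟩
    simp only [h1, one_mul]
    calc k x = Real.sqrt (k x) ^ 2 := (Real.sq_sqrt (hk0 x)).symm
      _ ≤ (p.eval x) ^ 2 := by
          gcongr
          exact hp1 x hx01
  · -- the integral
    have e1 : VW (fun x => φ x * p.eval x) = ∫ x in (0:ℝ)..1, min x 1 * (φ x * p.eval x) ^ 2 := by
      unfold VW
      rw [intervalIntegral.integral_of_le zero_le_one]
      refine (setIntegral_eq_of_subset_of_forall_sdiff_eq_zero measurableSet_Ioi Ioc_subset_Ioi_self ?_)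
      intro x hx
      have hx1 : 1 < x := by
        by_contra h
        push Not at h
        exact hx.2 ⟨hx.1, h⟩
      have : φ x * p.eval x = 0 := by
        by_contra h
        have := (hsupp x h).2
        linarith
      simp [this]
    rw [e1]
    have hc1 : Continuous fun x : ℝ => min x 1 * (φ x * p.eval x) ^ 2 := by
      have := φ.continuous
      have := p.continuous
      fun_prop
    have hc2 : Continuous fun x : ℝ => x * k x + δ * (4 * (M + 1) + 4) := by fun_prop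
    have hc3 : Continuous fun x : ℝ => x * k x := by fun_prop
    have h2 : ∫ x in (0:ℝ)..1, min x 1 * (φ x * p.eval x) ^ 2 ≤ ∫ x in (0:ℝ)..1, (x * k x + δ * (4 * (M + 1) + 4)) := by
      refine intervalIntegral.integral_mono_on zero_le_one (hc1.intervalIntegrable _ _) (hc2.intervalIntegrable _ _) ?_
      intro x hx
      have hpx1 := hp1 x hx
      have hpx2 := hp2 x hx
      have hs0 := Real.sqrt_nonneg (k x)
      have hkM : k x ≤ M := by
        have := hM x hx
        rwa [Real.norm_of_nonneg (hk0 x)] at this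
      have hsM : Real.sqrt (k x) ≤ M + 1 := by
        rw [Real.sqrt_le_iff]
        exact ⟨by linarith, by nlinarith⟩
      have h3 : (φ x * p.eval x) ^ 2 ≤ (p.eval x) ^ 2 := by
        rw [mul_pow]
        have h4 : φ x ^ 2 ≤ 1 := pow_le_one₀ φ.nonneg φ.le_one
        calc φ x ^ 2 * p.eval x ^ 2 ≤ 1 * p.eval x ^ 2 := by gcongr
          _ = _ := one_mul _
      have h5 : (p.eval x) ^ 2 ≤ k x + δ * (4 * (M + 1) + 4) := by
        have h6 : (p.eval x) ^ 2 ≤ (Real.sqrt (k x) + 2 * δ) ^ 2 := by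
          have : 0 ≤ p.eval x := hs0.trans hpx1
          gcongr
        have h7 := Real.sq_sqrt (hk0 x)
        nlinarith [mul_nonneg hδ0.le (by linarith : 0 ≤ M + 1 - Real.sqrt (k x)), mul_nonneg hδ0.le (by linarith : 0 ≤ 1 - δ)]
      rw [min_eq_left hx.2]
      have h8 : 0 ≤ δ * (4 * (M + 1) + 4) := by positivity
      calc x * (φ x * p.eval x) ^ 2 ≤ x * (k x + δ * (4 * (M + 1) + 4)) := by
            refine mul_le_mul_of_nonneg_left (h3.trans h5) hx.1
        _ ≤ _ := by nlinarith [hx.1, hx.2]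
    refine h2.trans ?_
    rw [intervalIntegral.integral_add (hc3.intervalIntegrable _ _) intervalIntegrable_const,
      intervalIntegral.integral_const]
    simp only [sub_zero, smul_eq_mul, one_mul]
    linarith

/-- **upper bound for the form factor on `(-1,1)`, in the mean** -/
theorem up_all {h : ℝ → ℝ} (hc : Continuous h) (h0 : ∀ x, 0 ≤ h x) {θ : ℝ} (hθ1 : θ < 1)
    (hs : ∀ x, θ ≤ |x| → h x = 0) {ε : ℝ} (hε : 0 < ε) :
    ∀ᶠ T : ℝ in atTop, ∫ x, h x * ff T x ≤ h 0 + (∫ x, |x| * h x) + ε := by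
  -- enlarge θ
  obtain ⟨θ', hθ'⟩ : ∃ θ', θ' = max θ (1 / 2) := ⟨_, rfl⟩
  have hθ'1 : θ' < 1 := by rw [hθ']; exact max_lt hθ1 (by norm_num)
  have hθ'2 : 1 / 2 ≤ θ' := by rw [hθ']; exact le_max_right _ _
  have hs' : ∀ x, θ' ≤ |x| → h x = 0 := fun x hx => hs x ((by rw [hθ']; exact le_max_left _ _ : θ ≤ θ').trans hx)
  -- continuity at zero
  obtain ⟨M, hM⟩ : ∃ M, M = h 0 + 1 := ⟨_, rfl⟩
  have hM0 : 0 < M := by rw [hM]; linarith [h0 0]
  obtain ⟨e1, he1⟩ : ∃ e1, e1 = min 1 (ε / 8) := ⟨_, rfl⟩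
  have he10 : 0 < e1 := by rw [he1]; exact lt_min one_pos (by linarith)
  have he11 : e1 ≤ 1 := by rw [he1]; exact min_le_left _ _
  have he12 : e1 ≤ ε / 8 := by rw [he1]; exact min_le_right _ _
  obtain ⟨κ0, hκ0, hκ0'⟩ := Metric.continuousAt_iff.mp (hc.continuousAt (x := 0)) e1 he10
  obtain ⟨e2, he2⟩ : ∃ e2, e2 = min 1 (ε / (8 * M)) := ⟨_, rfl⟩
  have he20 : 0 < e2 := by rw [he2]; exact lt_min one_pos (by positivity)
  have he22 : e2 * M ≤ ε / 8 := by
    have h1 : e2 ≤ ε / (8 * M) := by rw [he2]; exact min_le_right _ _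
    calc e2 * M ≤ ε / (8 * M) * M := by gcongr
      _ = ε / 8 := by field_simp
  obtain ⟨κ, hκd⟩ : ∃ κ, κ = min (κ0 / 2) (min (1 / 5) (e2 / 4)) := ⟨_, rfl⟩
  have hκ : 0 < κ := by rw [hκd]; exact lt_min (by linarith) (lt_min (by norm_num) (by linarith))
  have hκ1 : κ ≤ κ0 / 2 := by rw [hκd]; exact min_le_left _ _
  have hκ2 : κ ≤ 1 / 5 := by rw [hκd]; exact (min_le_right _ _).trans (min_le_left _ _)
  have hκ3 : κ ≤ e2 / 4 := by rw [hκd]; exact (min_le_right _ _).trans (min_le_right _ _)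
  have hnear : ∀ x, |x| ≤ κ → h x ≤ h 0 + e1 := by
    intro x hx
    have h1 : dist x 0 < κ0 := by
      rw [Real.dist_eq, sub_zero]
      linarith
    have h2 := hκ0' h1
    rw [Real.dist_eq] at h2
    linarith [(abs_lt.mp h2).2]
  -- the outer weight
  obtain ⟨k, hk⟩ : ∃ k : ℝ → ℝ, k = fun x => h x + h (-x) := ⟨_, rfl⟩
  have hkc : Continuous k := by rw [hk]; fun_prop
  have hk0 : ∀ x, 0 ≤ k x := fun x => by rw [hk]; simp only; linarith [h0 x, h0 (-x)]
  obtain ⟨w, a, b, hw, hb, hwk, hwV⟩ := weight99 hkc hk0 hκ (show κ < θ' by linarith) hθ'1 (show 0 < ε / 8 by linarith)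
  have habs : ∫ x in (0:ℝ)..1, x * k x = ∫ x, |x| * h x := by
    have hc4 : Continuous fun x : ℝ => |x| * h x := by fun_prop
    have hsup : ∀ x, x ∉ Icc (-1:ℝ) 1 → |x| * h x = 0 := by
      intro x hx
      have : θ' ≤ |x| := by
        by_contra h
        push Not at h
        apply hx
        have := abs_lt.mp h
        exact ⟨by linarith, by linarith⟩
      rw [hs' x this, mul_zero]
    have h1 : ∫ x, |x| * h x = ∫ x in (-1:ℝ)..1, |x| * h x := by
      rw [intervalIntegral.integral_of_le (by norm_num), ← integral_Icc_eq_integral_Ioc]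
      exact (setIntegral_eq_integral_of_forall_compl_eq_zero hsup).symm
    rw [h1, ← intervalIntegral.integral_add_adjacent_intervals (b := 0) (hc4.intervalIntegrable _ _) (hc4.intervalIntegrable _ _)]
    have h2 : ∫ x in (-1:ℝ)..0, |x| * h x = ∫ x in (0:ℝ)..1, x * h (-x) := by
      have h3 := intervalIntegral.integral_comp_neg (a := (0:ℝ)) (b := 1) (fun x => |x| * h x)
      rw [neg_zero] at h3
      rw [← h3]
      refine intervalIntegral.integral_congr fun x hx => ?_
      rw [uIcc_of_le zero_le_one] at hx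
      show |(-x)| * h (-x) = x * h (-x)
      rw [abs_neg, abs_of_nonneg hx.1]
    have h3 : ∫ x in (0:ℝ)..1, |x| * h x = ∫ x in (0:ℝ)..1, x * h x := by
      refine intervalIntegral.integral_congr fun x hx => ?_
      rw [uIcc_of_le zero_le_one] at hx
      show |x| * h x = x * h x
      rw [abs_of_nonneg hx.1]
    rw [h2, h3, ← intervalIntegral.integral_add]
    · refine intervalIntegral.integral_congr fun x _ => ?_
      rw [hk]
      simp only
      ring
    · have : Continuous fun x : ℝ => x * h (-x) := by fun_prop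
      exact this.intervalIntegrable _ _
    · have : Continuous fun x : ℝ => x * h x := by fun_prop
      exact this.intervalIntegrable _ _
  rw [habs] at hwV
  filter_upwards [up_low hκ (show κ < 1 / 4 by linarith) (show 0 < e2 / 2 by linarith),
    up_mid hw hb (show 0 < ε / 8 by linarith), eventually_gt_atTop (1 : ℝ)] with T hlow hmid hT1
  have hT0 : 0 < T := by linarith
  have hfc := ff_cont hT1
  have hf0 := fun x => ff_nonneg hT1.le x
  have hhf : Continuous fun x => h x * ff T x := hc.mul hfc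
  -- split
  have hsup : ∀ x, x ∉ Icc (-θ') θ' → h x * ff T x = 0 := by
    intro x hx
    have : θ' ≤ |x| := by
      by_contra h
      push Not at h
      apply hx
      have := abs_lt.mp h
      exact ⟨by linarith, by linarith⟩
    rw [hs' x this, zero_mul]
  have h1 : ∫ x, h x * ff T x = ∫ x in (-θ')..θ', h x * ff T x := by
    rw [intervalIntegral.integral_of_le (by linarith), ← integral_Icc_eq_integral_Ioc]
    exact (setIntegral_eq_integral_of_forall_compl_eq_zero hsup).symm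
  have h2 : ∫ x in (-θ')..θ', h x * ff T x = (∫ x in (-θ')..(-κ), h x * ff T x) + (∫ x in (-κ)..κ, h x * ff T x) +
      ∫ x in κ..θ', h x * ff T x := by
    rw [intervalIntegral.integral_add_adjacent_intervals (hhf.intervalIntegrable _ _) (hhf.intervalIntegrable _ _),
      intervalIntegral.integral_add_adjacent_intervals (hhf.intervalIntegrable _ _) (hhf.intervalIntegrable _ _)]
  have h3 : ∫ x in (-θ')..(-κ), h x * ff T x = ∫ x in κ..θ', h (-x) * ff T x := by
    have h4 := intervalIntegral.integral_comp_neg (a := κ) (b := θ') (fun x => h x * ff T x)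
    rw [← h4]
    refine intervalIntegral.integral_congr fun x _ => ?_
    show h (-x) * ff T (-x) = h (-x) * ff T x
    rw [ff_even hT0]
  have h4 : (∫ x in κ..θ', h (-x) * ff T x) + ∫ x in κ..θ', h x * ff T x = ∫ x in κ..θ', k x * ff T x := by
    rw [← intervalIntegral.integral_add]
    · refine intervalIntegral.integral_congr fun x _ => ?_
      rw [hk]
      simp only
      ring
    · have : Continuous fun x : ℝ => h (-x) * ff T x := by fun_prop
      exact this.intervalIntegrable _ _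
    · exact hhf.intervalIntegrable _ _
  have hwc : Continuous fun x => w x ^ 2 * ff T x := (hw.1.continuous.pow 2).mul hfc
  have hwi : Integrable fun x => w x ^ 2 * ff T x := by
    refine hwc.integrable_of_hasCompactSupport ?_
    refine HasCompactSupport.intro (isCompact_Icc (a := a) (b := b)) fun x hx => ?_
    have : w x = 0 := by
      by_contra h
      exact hx ⟨(hw.2.2.2 x h).1, (hw.2.2.2 x h).2⟩
    simp [this]
  have h5 : ∫ x in κ..θ', k x * ff T x ≤ ∫ x, w x ^ 2 * ff T x := by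
    calc ∫ x in κ..θ', k x * ff T x ≤ ∫ x in κ..θ', w x ^ 2 * ff T x := by
          refine intervalIntegral.integral_mono_on (by linarith) ((hkc.mul hfc).intervalIntegrable _ _)
            (hwc.intervalIntegrable _ _) fun x hx => ?_
          exact mul_le_mul_of_nonneg_right (hwk x hx) (hf0 x)
      _ ≤ _ := by
          rw [intervalIntegral.integral_of_le (by linarith)]
          exact setIntegral_le_integral hwi (Eventually.of_forall fun x => mul_nonneg (sq_nonneg _) (hf0 x))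
  have h6 : ∫ x in (-κ)..κ, h x * ff T x ≤ (h 0 + e1) * ∫ x in (-κ)..κ, ff T x := by
    rw [← intervalIntegral.integral_const_mul]
    refine intervalIntegral.integral_mono_on (by linarith) (hhf.intervalIntegrable _ _)
      ((continuous_const.mul hfc).intervalIntegrable _ _) fun x hx => ?_
    exact mul_le_mul_of_nonneg_right (hnear x (abs_le.mpr ⟨hx.1, hx.2⟩)) (hf0 x)
  have h00 := h0 0
  have h7 : (h 0 + e1) * ∫ x in (-κ)..κ, ff T x ≤ h 0 + ε / 4 := by
    have h8 : (h 0 + e1) * ∫ x in (-κ)..κ, ff T x ≤ (h 0 + e1) * (1 + e2) := by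
      refine mul_le_mul_of_nonneg_left ?_ (by linarith)
      have h9 : 4 * κ ^ 2 ≤ e2 / 2 := by nlinarith
      linarith
    have h10 : e2 * (h 0 + e1) ≤ e2 * M := by
      refine mul_le_mul_of_nonneg_left ?_ he20.le
      rw [hM]
      linarith
    nlinarith
  rw [h1, h2, h3]
  linarith

end Pool.Agent.Helper99.HZ
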